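import Mathlib

/-!
# The Hall-Lang bound for polynomials, by an elementary argument
-/

set_option autoImplicit false

namespace Pool.Agent.Q103.HL

open Polynomial

section

variable {k : Type*} [Field k]

/-- degree at most `n` -/
def Dg (P : k[X]) (n : ℕ) : Prop := P.natDegree ≤ n

theorem Dg.mono {P : k[X]} {n m : ℕ} (h : Dg P n) (hm : n ≤ m) : Dg P m := le_trans h hm

theorem Dg.mul {P Q : k[X]} {n m : ℕ} (h : Dg P n) (h' : Dg Q m) : Dg (P * Q) (n + m) :=
  natDegree_mul_le_of_le h h'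

theorem Dg.add {P Q : k[X]} {n m : ℕ} (h : Dg P n) (h' : Dg Q m) : Dg (P + Q) (max n m) :=
  (natDegree_add_le _ _).trans (max_le_max h h')

theorem Dg.sub {P Q : k[X]} {n m : ℕ} (h : Dg P n) (h' : Dg Q m) : Dg (P - Q) (max n m) :=
  (natDegree_sub_le _ _).trans (max_le_max h h')

theorem Dg.pow {P : k[X]} {n : ℕ} (h : Dg P n) (j : ℕ) : Dg (P ^ j) (j * n) :=
  natDegree_pow_le_of_le j h

theorem Dg.der {P : k[X]} {n : ℕ} (h : Dg P n) : Dg (derivative P) n :=
  (natDegree_derivative_le _).trans ((Nat.sub_le _ _).trans h)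

theorem Dg.cst (c : k) : Dg (C c) 0 := (natDegree_C c).le

theorem Dg.smul {P : k[X]} {n : ℕ} (c : k) (h : Dg P n) : Dg (C c * P) n :=
  ((Dg.cst c).mul h).mono (by omega)

theorem Dg.neg {P : k[X]} {n : ℕ} (h : Dg P n) : Dg (-P) n := by
  unfold Dg; rw [natDegree_neg]; exact h

end

section

variable {k : Type*} [Field k] [CharZero k]

/-- If `6 * Δ * x' = Δ' * x` then `6 * deg x = deg Δ`. -/
theorem deg_of_log {Δ x : k[X]} (hΔ : Δ ≠ 0) (hx : x ≠ 0)
    (h : C 6 * (Δ * derivative x) = derivative Δ * x) : 6 * x.natDegree = Δ.natDegree := by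
  have h1 : derivative (x ^ 6) * Δ = derivative Δ * x ^ 6 := by
    have h2 : derivative (x ^ 6) = C 6 * x ^ 5 * derivative x := by
      rw [derivative_pow]; push_cast; norm_num
    rw [h2]
    linear_combination (x ^ 5) * h
  -- the derivative of `x ^ 6 / Δ` vanishes
  have hx6 : x ^ 6 ≠ 0 := pow_ne_zero _ hx
  have key : (x ^ 6).natDegree = Δ.natDegree := by
    by_contra hne
    have h3 : (derivative (x ^ 6) * Δ).coeff ((x ^ 6).natDegree + Δ.natDegree - 1) =
        (derivative Δ * x ^ 6).coeff ((x ^ 6).natDegree + Δ.natDegree - 1) := by rw [h1]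
    have gen : ∀ P Q : k[X], P ≠ 0 → Q ≠ 0 → 0 < P.natDegree + Q.natDegree →
        (derivative P * Q).coeff (P.natDegree + Q.natDegree - 1) =
          P.natDegree * P.leadingCoeff * Q.leadingCoeff := by
      intro P Q hP hQ hpos
      rcases Nat.eq_zero_or_pos P.natDegree with h0 | h0
      · rw [eq_C_of_natDegree_eq_zero h0]
        simp
      · have h4 : P.natDegree + Q.natDegree - 1 = (P.natDegree - 1) + Q.natDegree := by omega
        rw [h4, coeff_mul_add_eq_of_natDegree_le (natDegree_derivative_le _) le_rfl, coeff_derivative]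
        have h5 : P.natDegree - 1 + 1 = P.natDegree := by omega
        rw [h5, coeff_natDegree, coeff_natDegree]
        have h6 : ((P.natDegree - 1 : ℕ) : k) + 1 = P.natDegree := by
          have : ((P.natDegree - 1 + 1 : ℕ) : k) = P.natDegree := by rw [h5]
          push_cast at this
          exact this
        rw [h6]
        ring
    have hpos : 0 < (x ^ 6).natDegree + Δ.natDegree := by omega
    rw [gen _ _ hx6 hΔ hpos] at h3
    rw [show (x ^ 6).natDegree + Δ.natDegree - 1 = Δ.natDegree + (x ^ 6).natDegree - 1 by omega,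
      gen _ _ hΔ hx6 (by omega)] at h3
    have h7 : (((x ^ 6).natDegree : k) - Δ.natDegree) * ((x ^ 6).leadingCoeff * Δ.leadingCoeff) = 0 := by
      linear_combination h3
    rcases mul_eq_zero.mp h7 with h8 | h8
    · apply hne
      have : ((x ^ 6).natDegree : k) = Δ.natDegree := by linear_combination h8
      exact_mod_cast this
    · rcases mul_eq_zero.mp h8 with h9 | h9
      · exact hx6 (leadingCoeff_eq_zero.mp h9)
      · exact hΔ (leadingCoeff_eq_zero.mp h9)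
  rw [natDegree_pow] at key
  exact key

theorem ff {a b x y : k[X]} (h : y ^ 2 = x ^ 3 + a * x + b) {H : ℕ} (ha : a.natDegree ≤ H)
    (hb : b.natDegree ≤ H) (hD : 4 * a ^ 3 + 27 * b ^ 2 ≠ 0) : x.natDegree ≤ 44 * H := by
  by_contra hcon
  push Not at hcon
  obtain ⟨m, hm⟩ : ∃ m, m = x.natDegree := ⟨_, rfl⟩
  rw [← hm] at hcon
  have hx0 : x ≠ 0 := by
    rintro rfl
    rw [natDegree_zero] at hm
    omega
  have dx : Dg x m := hm.ge
  have da : Dg a H := ha
  have db : Dg b H := hb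
  have c4 : (4 : k[X]) = C 4 := (map_ofNat C 4).symm
  have c27 : (27 : k[X]) = C 27 := (map_ofNat C 27).symm
  rw [c4, c27] at hD
  -- the degree of `y`
  have hy2 : 2 * y.natDegree = 3 * m := by
    have h1 : (x ^ 3 + a * x + b).natDegree = 3 * m := by
      have h2 : (a * x + b).natDegree < (x ^ 3).natDegree := by
        rw [natDegree_pow, ← hm]
        have h3 : Dg (a * x + b) (max (H + m) H) := (da.mul dx).add db
        have h4 : (a * x + b).natDegree ≤ max (H + m) H := h3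
        omega
      rw [add_assoc, natDegree_add_eq_left_of_natDegree_lt h2, natDegree_pow, ← hm]
    rw [← h1, ← h, natDegree_pow]
  have hy0 : y ≠ 0 := by
    rintro rfl
    rw [natDegree_zero] at hy2
    omega
  obtain ⟨x', hx'⟩ : ∃ x', x' = derivative x := ⟨_, rfl⟩
  obtain ⟨y', hy'⟩ : ∃ y', y' = derivative y := ⟨_, rfl⟩
  obtain ⟨a', ha'⟩ : ∃ a', a' = derivative a := ⟨_, rfl⟩
  obtain ⟨b', hb'⟩ : ∃ b', b' = derivative b := ⟨_, rfl⟩
  obtain ⟨Δ, hΔ⟩ : ∃ Δ : k[X], Δ = C 4 * a ^ 3 + C 27 * b ^ 2 := ⟨_, rfl⟩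
  rw [← hΔ] at hD
  obtain ⟨α, hα⟩ : ∃ α : k[X], α = C 9 * (a' * b) - C 6 * (a * b') := ⟨_, rfl⟩
  obtain ⟨β, hβ⟩ : ∃ β : k[X], β = C 2 * (a ^ 2 * a') + C 9 * (b * b') := ⟨_, rfl⟩
  obtain ⟨γ, hγ⟩ : ∃ γ : k[X], γ = C 6 * (a * a' * b) - C 4 * (a ^ 2 * b') := ⟨_, rfl⟩
  have dx' : Dg x' m := by rw [hx']; exact dx.der
  have da' : Dg a' H := by rw [ha']; exact da.der
  have db' : Dg b' H := by rw [hb']; exact db.der
  have dΔ : Dg Δ (3 * H) := by
    rw [hΔ]
    exact (((da.pow 3).smul 4).add ((db.pow 2).smul 27)).mono (by omega)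
  have dα : Dg α (2 * H) := by
    rw [hα]
    exact (((da'.mul db).smul 9).sub ((da.mul db').smul 6)).mono (by omega)
  have dβ : Dg β (3 * H) := by
    rw [hβ]
    exact ((((da.pow 2).mul da').smul 2).add ((db.mul db').smul 9)).mono (by omega)
  have dγ : Dg γ (3 * H) := by
    rw [hγ]
    exact ((((da.mul da').mul db).smul 6).sub (((da.pow 2).mul db').smul 4)).mono (by omega)
  -- constants
  have e2 : (C 2 : k[X]) = 2 := map_ofNat C 2
  have e3 : (C 3 : k[X]) = 3 := map_ofNat C 3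
  have e4 : (C 4 : k[X]) = 4 := map_ofNat C 4
  have e6 : (C 6 : k[X]) = 6 := map_ofNat C 6
  have e9 : (C 9 : k[X]) = 9 := map_ofNat C 9
  have e27 : (C 27 : k[X]) = 27 := map_ofNat C 27
  rw [e4, e27] at hΔ
  rw [e9, e6] at hα
  rw [e2, e9] at hβ
  rw [e6, e4] at hγ
  -- the differentiated equation
  have hder : 2 * y * y' = (3 * x ^ 2 + a) * x' + a' * x + b' := by
    have h1 := congrArg derivative h
    rw [derivative_add, derivative_add, derivative_mul, derivative_pow, derivative_pow, ← hx',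
      ← hy', ← ha', ← hb'] at h1
    push_cast at h1
    norm_num [e2, e3] at h1
    linear_combination h1
  obtain ⟨Z, hZ⟩ : ∃ Z, Z = Δ * x' - (α * x ^ 2 + β * x + γ) := ⟨_, rfl⟩
  obtain ⟨W, hW⟩ : ∃ W, W = 2 * Δ * y' - 3 * (α * x + β) * y := ⟨_, rfl⟩
  have hZW : (3 * x ^ 2 + a) * Z = y * W := by
    rw [hZ, hW, hΔ, hα, hβ, hγ]
    linear_combination (-(4 * a ^ 3 + 27 * b ^ 2)) * hder +
      (3 * ((9 * (a' * b) - 6 * (a * b')) * x + (2 * (a ^ 2 * a') + 9 * (b * b')))) * h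
  obtain ⟨η, hη⟩ : ∃ η, η = (6 * a * x ^ 2 - 9 * b * x + 4 * a ^ 2) * W -
      (18 * a * x - 27 * b) * y * Z := ⟨_, rfl⟩
  have hηZ : Δ * Z = y * η := by
    rw [hη, hΔ]
    linear_combination (6 * a * x ^ 2 - 9 * b * x + 4 * a ^ 2) * hZW +
      ((18 * a * x - 27 * b) * Z) * h
  obtain ⟨D₁, hD₁⟩ : ∃ D₁, D₁ = Δ ^ 2 := ⟨_, rfl⟩
  obtain ⟨a₁, ha₁⟩ : ∃ a₁, a₁ = Δ * α := ⟨_, rfl⟩
  obtain ⟨b₁, hb₁⟩ : ∃ b₁, b₁ = Δ * β := ⟨_, rfl⟩
  obtain ⟨c₁, hc₁⟩ : ∃ c₁, c₁ = Δ * γ := ⟨_, rfl⟩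
  have dD₁ : Dg D₁ (6 * H) := by rw [hD₁]; exact (dΔ.pow 2).mono (by omega)
  have da₁ : Dg a₁ (5 * H) := by rw [ha₁]; exact (dΔ.mul dα).mono (by omega)
  have db₁ : Dg b₁ (6 * H) := by rw [hb₁]; exact (dΔ.mul dβ).mono (by omega)
  have dc₁ : Dg c₁ (6 * H) := by rw [hc₁]; exact (dΔ.mul dγ).mono (by omega)
  have hmain : y * η = D₁ * x' - a₁ * x ^ 2 - b₁ * x - c₁ := by
    rw [← hηZ, hZ, hD₁, ha₁, hb₁, hc₁]
    ring
  have dmain : Dg (D₁ * x' - a₁ * x ^ 2 - b₁ * x - c₁) (2 * m + 5 * H) :=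
    ((((dD₁.mul dx').sub (da₁.mul (dx.pow 2))).sub (db₁.mul dx)).sub dc₁).mono (by omega)
  have two0 : (2 : k[X]) ≠ 0 := by rw [← e2]; simp
  by_cases hα0 : α = 0
  · -- the differential equation is linear
    have hγ0 : γ = 0 := by
      have h3 : C 3 * γ = 0 := by
        rw [e3, hγ]
        rw [hα] at hα0
        linear_combination (2 * a) * hα0
      rcases mul_eq_zero.mp h3 with h4 | h4
      · exact absurd h4 (by simp)
      · exact h4
    have h5 : y * η = D₁ * x' - b₁ * x := by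
      rw [hmain, ha₁, hc₁, hα0, hγ0]
      ring
    have d5 : Dg (D₁ * x' - b₁ * x) (6 * H + m) := ((dD₁.mul dx').sub (db₁.mul dx)).mono (by omega)
    have hη0 : η = 0 := by
      by_contra hne
      have h6 := natDegree_mul hy0 hne
      rw [h5] at h6
      have h7 : (D₁ * x' - b₁ * x).natDegree ≤ 6 * H + m := d5
      omega
    rw [hη0, mul_zero] at h5
    have h8 : C 6 * (Δ * derivative x) = derivative Δ * x := by
      have h9 : Δ * (C 6 * (Δ * derivative x) - derivative Δ * x) = 0 := by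
        have h10 : derivative Δ = 6 * β := by
          rw [hΔ, hβ, derivative_add, derivative_mul, derivative_mul, derivative_pow,
            derivative_pow, ← ha', ← hb', ← e4, ← e27, derivative_C, derivative_C, e4, e27]
          push_cast
          norm_num [e2, e3]
          ring
        rw [h10, e6, ← hx']
        rw [hD₁, hb₁] at h5
        linear_combination (-6 : k[X]) * h5
      rcases mul_eq_zero.mp h9 with h10 | h10
      · exact absurd h10 hD
      · linear_combination h10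
    have h11 := deg_of_log hD hx0 h8
    have h12 : Δ.natDegree ≤ 3 * H := dΔ
    omega
  have ha₁0 : a₁ ≠ 0 := by rw [ha₁]; exact mul_ne_zero hD hα0
  obtain ⟨e, he⟩ : ∃ e, e = η.natDegree := ⟨_, rfl⟩
  have dη : Dg η e := he.ge
  have h2e : 2 * e ≤ m + 10 * H := by
    by_cases hη0 : η = 0
    · rw [hη0, natDegree_zero] at he
      omega
    · have h6 := natDegree_mul hy0 hη0
      rw [hmain] at h6
      have h7 : (D₁ * x' - a₁ * x ^ 2 - b₁ * x - c₁).natDegree ≤ 2 * m + 5 * H := dmain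
      omega
  obtain ⟨r, hr⟩ : ∃ r, r = a₁ ^ 2 * x - η ^ 2 := ⟨_, rfl⟩
  have hsq : y ^ 2 * η ^ 2 = (D₁ * x' - a₁ * x ^ 2 - b₁ * x - c₁) ^ 2 := by
    rw [← hmain]; ring
  have hR : x ^ 3 * (-(r + 2 * a₁ * b₁)) = (D₁ * x' - b₁ * x - c₁) ^ 2 -
      C 2 * (a₁ * D₁ * x ^ 2 * x') + C 2 * (a₁ * c₁ * x ^ 2) - (a * x + b) * η ^ 2 := by
    rw [hr, e2]
    linear_combination hsq - (η ^ 2) * h
  have dR : Dg ((D₁ * x' - b₁ * x - c₁) ^ 2 - C 2 * (a₁ * D₁ * x ^ 2 * x') +
      C 2 * (a₁ * c₁ * x ^ 2) - (a * x + b) * η ^ 2) (3 * m + 11 * H) := by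
    refine ((((((dD₁.mul dx').sub (db₁.mul dx)).sub dc₁).pow 2).sub
      ((((da₁.mul dD₁).mul (dx.pow 2)).mul dx').smul 2)).add
      (((da₁.mul dc₁).mul (dx.pow 2)).smul 2)).sub (((da.mul dx).add db).mul (dη.pow 2)) |>.mono ?_
    omega
  have dr0 : Dg (-(r + 2 * a₁ * b₁)) (11 * H) := by
    by_cases h0 : -(r + 2 * a₁ * b₁) = 0
    · rw [h0]
      show (0 : k[X]).natDegree ≤ _
      rw [natDegree_zero]
      omega
    · have h1 := natDegree_mul (pow_ne_zero 3 hx0) h0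
      rw [hR, natDegree_pow, ← hm] at h1
      have h7 : ((D₁ * x' - b₁ * x - c₁) ^ 2 - C 2 * (a₁ * D₁ * x ^ 2 * x') +
        C 2 * (a₁ * c₁ * x ^ 2) - (a * x + b) * η ^ 2).natDegree ≤ 3 * m + 11 * H := dR
      show (-(r + 2 * a₁ * b₁)).natDegree ≤ _
      omega
  have dr : Dg r (11 * H) := by
    have h1 : r = -(-(r + 2 * a₁ * b₁)) - C 2 * (a₁ * b₁) := by rw [e2]; ring
    rw [h1]
    exact (dr0.neg.sub ((da₁.mul db₁).smul 2)).mono (by omega)
  have hr' : a₁ ^ 2 * x = η ^ 2 + r := by rw [hr]; ring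
  have hme : m ≤ 2 * e := by
    have h1 := natDegree_mul (pow_ne_zero 2 ha₁0) hx0
    have h2 : Dg (η ^ 2 + r) (max (2 * e) (11 * H)) := (dη.pow 2).add dr
    rw [hr'] at h1
    have h3 : (η ^ 2 + r).natDegree ≤ max (2 * e) (11 * H) := h2
    omega
  obtain ⟨S, hS⟩ : ∃ S, S = C 3 * r ^ 2 + C 4 * (a * a₁ ^ 4) := ⟨_, rfl⟩
  obtain ⟨G, hG⟩ : ∃ G, G = r ^ 3 + a * a₁ ^ 4 * r + b * a₁ ^ 6 := ⟨_, rfl⟩
  have dS : Dg S (22 * H) := by
    rw [hS]
    exact (((dr.pow 2).smul 3).add ((da.mul (da₁.pow 4)).smul 4)).mono (by omega)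
  have dG : Dg G (33 * H) := by
    rw [hG]
    exact (((dr.pow 3).add ((da.mul (da₁.pow 4)).mul dr)).add (db.mul (da₁.pow 6))).mono (by omega)
  have hUV : (2 * a₁ ^ 3 * y - (C 2 * η ^ 3 + C 3 * (r * η))) *
      (2 * a₁ ^ 3 * y + (C 2 * η ^ 3 + C 3 * (r * η))) = S * η ^ 2 + C 4 * G := by
    rw [hS, hG, e2, e3, e4]
    linear_combination (4 * a₁ ^ 6) * h + (4 * ((a₁ ^ 2 * x) ^ 2 + (a₁ ^ 2 * x) * (η ^ 2 + r) +
      (η ^ 2 + r) ^ 2 + a₁ ^ 4 * a)) * hr'
  have hη0 : η ≠ 0 := by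
    rintro rfl
    rw [natDegree_zero] at he
    omega
  by_cases hE : S * η ^ 2 + C 4 * G = 0
  · have hS0 : S = 0 := by
      by_contra hne
      have h1 := natDegree_mul hne (pow_ne_zero 2 hη0)
      have h2 : S * η ^ 2 = -(C 4 * G) := by linear_combination hE
      have h3 : Dg (-(C 4 * G)) (33 * H) := (dG.smul 4).neg
      rw [h2, natDegree_pow, ← he] at h1
      have h4 : (-(C 4 * G)).natDegree ≤ 33 * H := h3
      omega
    have hG0 : G = 0 := by
      rw [hS0, zero_mul, zero_add] at hE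
      rcases mul_eq_zero.mp hE with h1 | h1
      · exact absurd h1 (by simp)
      · exact h1
    have h1 : 16 * (a₁ ^ 12 * Δ) = S * (S ^ 2 + 18 * r ^ 2 * S + 81 * r ^ 4) +
        G * (432 * G - 216 * (4 * r ^ 3 + 4 * (a * a₁ ^ 4) * r)) := by
      rw [hS, hG, hΔ, e3, e4]
      ring
    rw [hS0, hG0, zero_mul, zero_mul, zero_add,
      show (16 : k[X]) = C 16 from (map_ofNat C 16).symm] at h1
    rcases mul_eq_zero.mp h1 with h2 | h2
    · exact absurd h2 (by simp)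
    · exact mul_ne_zero (pow_ne_zero 12 ha₁0) hD h2
  · rw [← hUV] at hE
    have hE1 := left_ne_zero_of_mul hE
    have hE2 := right_ne_zero_of_mul hE
    have h1 := natDegree_mul hE1 hE2
    rw [hUV] at h1
    have h2 : Dg (S * η ^ 2 + C 4 * G) (22 * H + 2 * e) :=
      ((dS.mul (dη.pow 2)).add (dG.smul 4)).mono (by omega)
    have h3 : (S * η ^ 2 + C 4 * G).natDegree ≤ 22 * H + 2 * e := h2
    have h4 : (C 2 * (C 2 * η ^ 3 + C 3 * (r * η))).natDegree = 3 * e := by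
      have h5 : (C 3 * (r * η)).natDegree < (C 2 * η ^ 3).natDegree := by
        rw [natDegree_C_mul (by norm_num), natDegree_C_mul (by norm_num), natDegree_pow, ← he]
        have h6 : Dg (r * η) (11 * H + e) := dr.mul dη
        have h7 : (r * η).natDegree ≤ 11 * H + e := h6
        omega
      rw [natDegree_C_mul (by norm_num), natDegree_add_eq_left_of_natDegree_lt h5,
        natDegree_C_mul (by norm_num), natDegree_pow, ← he]
    have h8 : C 2 * (C 2 * η ^ 3 + C 3 * (r * η)) =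
        (2 * a₁ ^ 3 * y + (C 2 * η ^ 3 + C 3 * (r * η))) -
        (2 * a₁ ^ 3 * y - (C 2 * η ^ 3 + C 3 * (r * η))) := by
      rw [e2, e3]; ring
    have h9 := natDegree_sub_le (2 * a₁ ^ 3 * y + (C 2 * η ^ 3 + C 3 * (r * η)))
      (2 * a₁ ^ 3 * y - (C 2 * η ^ 3 + C 3 * (r * η)))
    rw [← h8, h4] at h9
    omega

end

end Pool.Agent.Q103.HL
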