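import Mathlib
import Pool.Agent.Q103.SD.Three
import Pool.Agent.Q103.HL.FF

/-!
# The Hall-Lang inequality for points whose coordinates have small digits
-/

set_option autoImplicit false

namespace Pool.Agent.Q103.HL

open Polynomial

/-- The sum of the absolute values of the coefficients of `P` is at most `W`. -/
def Bd (P : ℤ[X]) (W : ℝ) : Prop :=
  ∃ S : ℝ[X], (∀ i, |(P.coeff i : ℝ)| ≤ S.coeff i) ∧ S.eval 1 ≤ W

theorem eval_one_nonneg {S : ℝ[X]} (h : ∀ i, 0 ≤ S.coeff i) (i : ℕ) : S.coeff i ≤ S.eval 1 := by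
  rw [eval_eq_sum]
  unfold Polynomial.sum
  by_cases hi : i ∈ S.support
  · have := Finset.single_le_sum (f := fun n => S.coeff n * (1 : ℝ) ^ n)
      (fun j _ => by simpa using h j) hi
    simpa using this
  · rw [notMem_support_iff.mp hi]
    apply Finset.sum_nonneg
    intro j _
    simpa using h j

theorem Bd.coeff {P : ℤ[X]} {W : ℝ} (h : Bd P W) (i : ℕ) : |(P.coeff i : ℝ)| ≤ W := by
  obtain ⟨S, h1, h2⟩ := h
  exact (h1 i).trans ((eval_one_nonneg (fun j => (abs_nonneg _).trans (h1 j)) i).trans h2)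

theorem Bd.nonneg {P : ℤ[X]} {W : ℝ} (h : Bd P W) : 0 ≤ W := (abs_nonneg _).trans (h.coeff 0)

theorem Bd.mono {P : ℤ[X]} {W V : ℝ} (h : Bd P W) (hV : W ≤ V) : Bd P V := by
  obtain ⟨S, h1, h2⟩ := h
  exact ⟨S, h1, h2.trans hV⟩

theorem Bd.add {P Q : ℤ[X]} {W V : ℝ} (h : Bd P W) (h' : Bd Q V) : Bd (P + Q) (W + V) := by
  obtain ⟨S, h1, h2⟩ := h
  obtain ⟨S', h1', h2'⟩ := h'
  refine ⟨S + S', fun i => ?_, by rw [eval_add]; linarith⟩
  rw [coeff_add, coeff_add]
  push_cast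
  exact (abs_add_le _ _).trans (add_le_add (h1 i) (h1' i))

theorem Bd.neg {P : ℤ[X]} {W : ℝ} (h : Bd P W) : Bd (-P) W := by
  obtain ⟨S, h1, h2⟩ := h
  refine ⟨S, fun i => ?_, h2⟩
  rw [coeff_neg]
  push_cast
  rw [abs_neg]
  exact h1 i

theorem Bd.sub {P Q : ℤ[X]} {W V : ℝ} (h : Bd P W) (h' : Bd Q V) : Bd (P - Q) (W + V) := by
  rw [sub_eq_add_neg]
  exact h.add h'.neg

theorem Bd.mul {P Q : ℤ[X]} {W V : ℝ} (h : Bd P W) (h' : Bd Q V) : Bd (P * Q) (W * V) := by
  have hW := h.nonneg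
  obtain ⟨S, h1, h2⟩ := h
  obtain ⟨S', h1', h2'⟩ := h'
  have h0 : ∀ i, 0 ≤ S.coeff i := fun i => (abs_nonneg _).trans (h1 i)
  have h0' : ∀ i, 0 ≤ S'.coeff i := fun i => (abs_nonneg _).trans (h1' i)
  refine ⟨S * S', fun i => ?_, ?_⟩
  · rw [coeff_mul, coeff_mul]
    push_cast
    refine (Finset.abs_sum_le_sum_abs _ _).trans (Finset.sum_le_sum fun x _ => ?_)
    rw [abs_mul]
    exact mul_le_mul (h1 _) (h1' _) (abs_nonneg _) (h0 _)
  · rw [eval_mul]
    exact mul_le_mul h2 h2' ((h0' 0).trans (eval_one_nonneg h0' 0)) hW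

theorem Bd.const (c : ℤ) : Bd (C c) |(c : ℝ)| := by
  refine ⟨C |(c : ℝ)|, fun i => ?_, by simp⟩
  rw [coeff_C, coeff_C]
  split_ifs <;> simp

theorem Bd.one : Bd 1 1 := by
  have := Bd.const 1
  simpa using this

theorem Bd.pow {P : ℤ[X]} {W : ℝ} (h : Bd P W) (n : ℕ) : Bd (P ^ n) (W ^ n) := by
  induction n with
  | zero => simpa using Bd.one
  | succ n ih => rw [pow_succ, pow_succ]; exact ih.mul h

theorem Bd.prod {κ : Type*} (s : Finset κ) (F : κ → ℤ[X]) (w : κ → ℝ) (h : ∀ i ∈ s, Bd (F i) (w i)) :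
    Bd (∏ i ∈ s, F i) (∏ i ∈ s, w i) := by
  classical
  induction s using Finset.induction_on with
  | empty => simpa using Bd.one
  | insert i s hi ih =>
    rw [Finset.prod_insert hi, Finset.prod_insert hi]
    exact (h i (Finset.mem_insert_self _ _)).mul (ih fun j hj => h j (Finset.mem_insert_of_mem hj))

theorem Bd.of_coeff {P : ℤ[X]} {N : ℕ} {w : ℝ} (hP : P.natDegree ≤ N)
    (h : ∀ i, |(P.coeff i : ℝ)| ≤ w) : Bd P ((N + 1) * w) := by
  have hw : 0 ≤ w := (abs_nonneg _).trans (h 0)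
  refine ⟨∑ i ∈ Finset.range (N + 1), C w * X ^ i, fun i => ?_, ?_⟩
  · rw [finsetSum_coeff]
    simp only [coeff_C_mul, coeff_X_pow, mul_ite, mul_one, mul_zero]
    rw [Finset.sum_ite_eq]
    split_ifs with hi
    · exact h i
    · have h1 : N < i := by
        rw [Finset.mem_range] at hi
        omega
      rw [coeff_eq_zero_of_natDegree_lt (hP.trans_lt h1)]
      simp
  · rw [eval_finsetSum]
    simp

/-- **Division with remainder, with bounds for the coefficients.** -/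
theorem pdiv {P : ℤ[X]} (hp : 0 < P.natDegree) {W : ℝ} (hW : 1 ≤ W)
    (hP : ∀ i, |(P.coeff i : ℝ)| ≤ W) (n : ℕ) : ∀ (D : ℤ[X]) (U : ℝ), (∀ i, |(D.coeff i : ℝ)| ≤ U) →
    D.natDegree < P.natDegree + n → ∃ A₁ A₀ : ℤ[X],
      C (P.leadingCoeff ^ n) * D = A₁ * P + A₀ ∧ A₀.natDegree < P.natDegree ∧
      (∀ i, |(A₁.coeff i : ℝ)| ≤ U * (3 * W) ^ n) ∧ (∀ i, |(A₀.coeff i : ℝ)| ≤ U * (3 * W) ^ n) := by
  induction n with
  | zero =>
    intro D U hU hD
    refine ⟨0, D, by simp, by simpa using hD, fun i => ?_, fun i => by simpa using hU i⟩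
    have : 0 ≤ U := (abs_nonneg _).trans (hU 0)
    simpa using this
  | succ n ih =>
    intro D U hU hD
    have hU0 : 0 ≤ U := (abs_nonneg _).trans (hU 0)
    have hlW : |((P.leadingCoeff : ℤ) : ℝ)| ≤ W := hP _
    obtain ⟨d, hd⟩ : ∃ d, d = D.coeff (P.natDegree + n) := ⟨_, rfl⟩
    have hdU : |(d : ℝ)| ≤ U := by rw [hd]; exact hU _
    obtain ⟨D', hD'⟩ : ∃ D', D' = C P.leadingCoeff * D - C d * X ^ n * P := ⟨_, rfl⟩
    have hD'U : ∀ i, |(D'.coeff i : ℝ)| ≤ 2 * W * U := by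
      intro i
      rw [hD', coeff_sub, coeff_C_mul, mul_assoc, coeff_C_mul, coeff_X_pow_mul']
      push_cast
      refine (abs_sub _ _).trans ?_
      rw [abs_mul, abs_mul]
      have h1 : |((P.leadingCoeff : ℤ) : ℝ)| * |(D.coeff i : ℝ)| ≤ W * U :=
        mul_le_mul hlW (hU i) (abs_nonneg _) (by linarith)
      have h2 : |(d : ℝ)| * |((if n ≤ i then P.coeff (i - n) else 0 : ℤ) : ℝ)| ≤ U * W := by
        apply mul_le_mul hdU _ (abs_nonneg _) hU0
        split_ifs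
        · exact hP _
        · simp only [Int.cast_zero, abs_zero]; linarith
      push_cast at h2
      linarith
    have hD'deg : D'.natDegree < P.natDegree + n := by
      have h1 : D'.natDegree ≤ P.natDegree + n := by
        rw [hD']
        refine (natDegree_sub_le _ _).trans (max_le ?_ ?_)
        · refine (natDegree_C_mul_le _ _).trans ?_
          omega
        · rw [mul_assoc]
          refine (natDegree_C_mul_le _ _).trans ?_
          refine (natDegree_mul_le).trans ?_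
          rw [natDegree_X_pow]
          omega
      have h2 : D'.coeff (P.natDegree + n) = 0 := by
        rw [hD', coeff_sub, coeff_C_mul, mul_assoc, coeff_C_mul, coeff_X_pow_mul', if_pos (by omega),
          Nat.add_sub_cancel, ← hd]
        rw [coeff_natDegree]
        ring
      rcases h1.lt_or_eq with h3 | h3
      · exact h3
      · by_cases h4 : D' = 0
        · rw [h4, natDegree_zero]
          omega
        · exfalso
          rw [← h3, coeff_natDegree, leadingCoeff_eq_zero] at h2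
          exact h4 h2
    obtain ⟨A₁, A₀, h1, h2, h3, h4⟩ := ih D' (2 * W * U) hD'U hD'deg
    have hpw : (0 : ℝ) ≤ (3 * W) ^ n := by positivity
    refine ⟨A₁ + C (P.leadingCoeff ^ n * d) * X ^ n, A₀, ?_, h2, fun i => ?_, fun i => ?_⟩
    · rw [hD'] at h1
      have h5 : C (P.leadingCoeff ^ (n + 1)) * D = C (P.leadingCoeff ^ n) * (C P.leadingCoeff * D) := by
        rw [pow_succ, C_mul]
        ring
      rw [h5, C_mul]
      linear_combination h1
    · rw [coeff_add, coeff_C_mul, coeff_X_pow]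
      push_cast
      refine (abs_add_le _ _).trans ?_
      have h5 : |((P.leadingCoeff : ℤ) : ℝ) ^ n * (d : ℝ) * (if i = n then 1 else 0 : ℝ)| ≤
          W * U * (3 * W) ^ n := by
        rw [abs_mul, abs_mul, abs_pow]
        have h6 : |((P.leadingCoeff : ℤ) : ℝ)| ^ n ≤ W ^ n :=
          pow_le_pow_left₀ (abs_nonneg _) hlW n
        have h7 : |(if i = n then 1 else 0 : ℝ)| ≤ 1 := by split_ifs <;> simp
        have h8 : W ^ n ≤ (3 * W) ^ n := pow_le_pow_left₀ (by linarith) (by linarith) n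
        calc |((P.leadingCoeff : ℤ) : ℝ)| ^ n * |(d : ℝ)| * |(if i = n then 1 else 0 : ℝ)|
            ≤ (3 * W) ^ n * U * 1 := by
              apply mul_le_mul _ h7 (abs_nonneg _) (by positivity)
              exact mul_le_mul (h6.trans h8) hdU (abs_nonneg _) hpw
          _ ≤ W * U * (3 * W) ^ n := by
              have : 0 ≤ U * (3 * W) ^ n := by positivity
              nlinarith
      have h9 := h3 i
      calc |(A₁.coeff i : ℝ)| + |((P.leadingCoeff : ℤ) : ℝ) ^ n * (d : ℝ) * (if i = n then 1 else 0 : ℝ)|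
          ≤ 2 * W * U * (3 * W) ^ n + W * U * (3 * W) ^ n := add_le_add h9 h5
        _ = U * (3 * W) ^ (n + 1) := by ring
    · refine (h4 i).trans ?_
      rw [pow_succ]
      have : 0 ≤ U * (3 * W) ^ n * W := by positivity
      nlinarith

/-- **The inequality with polynomial dependence on the digits.** -/
theorem core {P Q : ℤ[X]} (hp : 0 < P.natDegree) {n t : ℕ} {W U : ℝ} (hW : 1 ≤ W)
    (hP : ∀ i, |(P.coeff i : ℝ)| ≤ W) (hD : ∀ i, |((Q ^ 2 - P ^ 3).coeff i : ℝ)| ≤ U)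
    (hdeg : (Q ^ 2 - P ^ 3).natDegree < P.natDegree + n)
    (ht : 8 * (U * (3 * W) ^ n) + 4 * W + 8 ≤ t)
    {A B : ℤ} (hAB : 4 * A ^ 3 + 27 * B ^ 2 ≠ 0)
    (heq : (Q.eval (t : ℤ)) ^ 2 = (P.eval (t : ℤ)) ^ 3 + A * P.eval (t : ℤ) + B)
    {h : ℝ} (hA : |(A : ℝ)| ≤ h) (hB : |(B : ℝ)| ≤ h) :
    |((P.eval (t : ℤ) : ℤ) : ℝ)| ≤ 2 * W * (2 * W ^ n * h) ^ 44 := by
  have hU0 : 0 ≤ U := (abs_nonneg _).trans (hD 0)
  obtain ⟨V, hV⟩ : ∃ V, V = U * (3 * W) ^ n := ⟨_, rfl⟩
  have hV0 : 0 ≤ V := by rw [hV]; positivity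
  rw [← hV] at ht
  have ht2 : 2 ≤ t := by
    have : (2 : ℝ) ≤ t := by linarith
    exact_mod_cast this
  have htR : (2 : ℝ) ≤ t := by exact_mod_cast ht2
  have h1 : 1 ≤ h := by
    by_contra hcon
    push Not at hcon
    have hA0 : |(A : ℝ)| < 1 := by linarith
    have hB0 : |(B : ℝ)| < 1 := by linarith
    have hA1 : |A| < 1 := by exact_mod_cast hA0
    have hB1 : |B| < 1 := by exact_mod_cast hB0
    rw [Int.abs_lt_one_iff] at hA1 hB1
    apply hAB
    rw [hA1, hB1]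
    norm_num
  have hWn : 1 ≤ W ^ n := one_le_pow₀ hW
  have hWnh : 1 ≤ W ^ n * h := by nlinarith
  have hP0 : P ≠ 0 := by
    rintro rfl
    rw [natDegree_zero] at hp
    omega
  obtain ⟨x, hx⟩ : ∃ x : ℤ, x = P.eval (t : ℤ) := ⟨_, rfl⟩
  obtain ⟨y, hy⟩ : ∃ y : ℤ, y = Q.eval (t : ℤ) := ⟨_, rfl⟩
  have hval := Pool.Agent.Q103.SD.value_size ht2 (by linarith) (by linarith) hP hP0
  rw [← hx] at hval
  rw [← hx, ← hy] at heq
  rw [← hx]
  have htp : (0 : ℝ) < (t : ℝ) ^ P.natDegree := by positivity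
  have hx0 : 0 < |(x : ℝ)| := by linarith [hval.1]
  have hbig : (2 * W ^ n * h) ≤ (2 * W ^ n * h) ^ 44 := le_self_pow₀ (by linarith) (by norm_num)
  by_cases hc : |(x : ℝ)| / 2 < W ^ n * h
  · have h2 : (2 * W ^ n * h) ≤ 2 * W * (2 * W ^ n * h) ^ 44 := by
      have h3 : 0 ≤ (2 * W ^ n * h) ^ 44 := by positivity
      nlinarith
    linarith
  push Not at hc
  obtain ⟨A₁, A₀, e1, e2, e3, e4⟩ := pdiv hp hW hP n (Q ^ 2 - P ^ 3) U hD hdeg
  rw [← hV] at e3 e4
  obtain ⟨l, hl⟩ : ∃ l, l = P.leadingCoeff := ⟨_, rfl⟩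
  rw [← hl] at e1
  have hl0 : l ≠ 0 := by rw [hl]; exact leadingCoeff_ne_zero.mpr hP0
  have hlW : |(l : ℝ)| ≤ W := by rw [hl]; exact hP _
  have hlWn : |((l ^ n : ℤ) : ℝ)| ≤ W ^ n := by
    push_cast
    rw [abs_pow]
    exact pow_le_pow_left₀ (abs_nonneg _) hlW n
  -- the value of the remainder
  have hA0v : |((A₀.eval (t : ℤ) : ℤ) : ℝ)| ≤ |(x : ℝ)| / 4 := by
    by_cases hz : A₀ = 0
    · rw [hz, eval_zero]
      simp only [Int.cast_zero, abs_zero]
      linarith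
    · have h2 := (Pool.Agent.Q103.SD.value_size ht2 hV0 (by linarith) e4 hz).2
      have h3 : (t : ℝ) ^ A₀.natDegree * t ≤ (t : ℝ) ^ P.natDegree := by
        rw [← pow_succ]
        exact pow_le_pow_right₀ (by linarith) e2
      have h4 : 0 < (t : ℝ) ^ A₀.natDegree := by positivity
      have h5 : (V + 1 / 2) * (t : ℝ) ^ A₀.natDegree ≤ (t : ℝ) ^ P.natDegree / 8 := by
        have h6 : (V + 1 / 2) * 8 ≤ t := by linarith
        have h7 : (V + 1 / 2) * 8 * (t : ℝ) ^ A₀.natDegree ≤ t * (t : ℝ) ^ A₀.natDegree :=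
          mul_le_mul_of_nonneg_right h6 h4.le
        linarith
      linarith [hval.1]
  have hev : (l ^ n * A - A₁.eval (t : ℤ)) * x = A₀.eval (t : ℤ) - l ^ n * B := by
    have h2 := congrArg (eval (t : ℤ)) e1
    rw [eval_mul, eval_C, eval_sub, eval_pow, eval_pow, eval_add, eval_mul, ← hx, ← hy] at h2
    linear_combination h2 - l ^ n * heq
  have hlB : |((l ^ n * B : ℤ) : ℝ)| ≤ |(x : ℝ)| / 2 := by
    rw [Int.cast_mul, abs_mul]
    exact (mul_le_mul hlWn hB (abs_nonneg _) (by positivity)).trans hc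
  have hz1 : l ^ n * A - A₁.eval (t : ℤ) = 0 := by
    by_contra hne
    have h2 : (1 : ℝ) ≤ |((l ^ n * A - A₁.eval (t : ℤ) : ℤ) : ℝ)| := by
      exact_mod_cast Int.one_le_abs hne
    have h3 : |(((l ^ n * A - A₁.eval (t : ℤ)) * x : ℤ) : ℝ)| ≤ |(x : ℝ)| / 4 + |(x : ℝ)| / 2 := by
      rw [hev, Int.cast_sub]
      exact (abs_sub _ _).trans (add_le_add hA0v hlB)
    rw [Int.cast_mul, abs_mul] at h3
    nlinarith
  have hz0 : A₀.eval (t : ℤ) - l ^ n * B = 0 := by rw [← hev, hz1, zero_mul]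
  -- the identity
  have hlq : ((l : ℚ) ^ n) ≠ 0 := pow_ne_zero _ (by exact_mod_cast hl0)
  obtain ⟨a, ha⟩ : ∃ a : ℚ[X], a = C (1 / (l : ℚ) ^ n) * A₁.map (Int.castRingHom ℚ) := ⟨_, rfl⟩
  obtain ⟨b, hb⟩ : ∃ b : ℚ[X], b = C (1 / (l : ℚ) ^ n) * A₀.map (Int.castRingHom ℚ) := ⟨_, rfl⟩
  have hinj : Function.Injective (Int.castRingHom ℚ) := Int.cast_injective
  have hid : (Q.map (Int.castRingHom ℚ)) ^ 2 = (P.map (Int.castRingHom ℚ)) ^ 3 +
      a * P.map (Int.castRingHom ℚ) + b := by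
    have h2 := congrArg (map (Int.castRingHom ℚ)) e1
    simp only [Polynomial.map_mul, Polynomial.map_sub, Polynomial.map_pow, Polynomial.map_add,
      map_C] at h2
    have h3 : C (1 / (l : ℚ) ^ n) * C ((Int.castRingHom ℚ) (l ^ n)) = 1 := by
      rw [← C_mul]
      have : 1 / (l : ℚ) ^ n * (Int.castRingHom ℚ) (l ^ n) = 1 := by
        simp only [eq_intCast, Int.cast_pow]
        field_simp
      rw [this, C_1]
    rw [ha, hb]
    linear_combination (C (1 / (l : ℚ) ^ n)) * h2 - ((Q.map (Int.castRingHom ℚ)) ^ 2 -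
      (P.map (Int.castRingHom ℚ)) ^ 3) * h3
  have hev' : ∀ R : ℤ[X], (R.map (Int.castRingHom ℚ)).eval (t : ℚ) = ((R.eval (t : ℤ) : ℤ) : ℚ) := by
    intro R
    rw [eval_map, ← eq_intCast (Int.castRingHom ℚ), ← eval₂_at_apply]
    simp
  have hae : a.eval (t : ℚ) = A := by
    rw [ha, eval_mul, eval_C, hev', ← sub_eq_zero.mp hz1]
    push_cast
    field_simp
  have hbe : b.eval (t : ℚ) = B := by
    rw [hb, eval_mul, eval_C, hev', sub_eq_zero.mp hz0]
    push_cast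
    field_simp
  have hdisc : 4 * a ^ 3 + 27 * b ^ 2 ≠ 0 := by
    intro h2
    have h3 := congrArg (eval (t : ℚ)) h2
    rw [eval_add, eval_mul, eval_mul, eval_pow, eval_pow, hae, hbe, eval_zero, eval_ofNat,
      eval_ofNat] at h3
    have h4 : ((4 * A ^ 3 + 27 * B ^ 2 : ℤ) : ℚ) = 0 := by
      push_cast
      linear_combination h3
    exact hAB (by exact_mod_cast h4)
  obtain ⟨m, hm⟩ : ∃ m, m = max A₁.natDegree A₀.natDegree := ⟨_, rfl⟩
  have hlC : ∀ R : ℤ[X], (C (1 / (l : ℚ) ^ n) * R.map (Int.castRingHom ℚ)).natDegree ≤ R.natDegree :=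
    fun R => (natDegree_C_mul_le _ _).trans (natDegree_map_le)
  have hff := ff hid (H := m) (by rw [ha, hm]; exact (hlC _).trans (le_max_left _ _))
    (by rw [hb, hm]; exact (hlC _).trans (le_max_right _ _)) hdisc
  rw [natDegree_map_eq_of_injective hinj] at hff
  have hmpos : 0 < m := by omega
  -- size of the coefficient of larger degree
  have hlow : (t : ℝ) ^ m ≤ 2 * W ^ n * h := by
    rcases max_choice A₁.natDegree A₀.natDegree with h2 | h2
    · rw [h2] at hm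
      have h3 : A₁ ≠ 0 := by
        rintro rfl
        rw [natDegree_zero] at hm
        omega
      have h4 := (Pool.Agent.Q103.SD.value_size ht2 hV0 (by linarith) e3 h3).1
      rw [← sub_eq_zero.mp hz1, Int.cast_mul, abs_mul, ← hm] at h4
      have h5 := mul_le_mul hlWn hA (abs_nonneg _) (by positivity : (0 : ℝ) ≤ W ^ n)
      linarith
    · rw [h2] at hm
      have h3 : A₀ ≠ 0 := by
        rintro rfl
        rw [natDegree_zero] at hm
        omega
      have h4 := (Pool.Agent.Q103.SD.value_size ht2 hV0 (by linarith) e4 h3).1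
      rw [sub_eq_zero.mp hz0, Int.cast_mul, abs_mul, ← hm] at h4
      have h5 := mul_le_mul hlWn hB (abs_nonneg _) (by positivity : (0 : ℝ) ≤ W ^ n)
      linarith
  have hup : (t : ℝ) ^ P.natDegree ≤ (2 * W ^ n * h) ^ 44 := by
    calc (t : ℝ) ^ P.natDegree ≤ (t : ℝ) ^ (44 * m) := pow_le_pow_right₀ (by linarith) hff
      _ = ((t : ℝ) ^ m) ^ 44 := by rw [← pow_mul, mul_comm]
      _ ≤ _ := pow_le_pow_left₀ (by positivity) hlow 44
  refine hval.2.trans ?_
  exact mul_le_mul (by linarith) hup (by positivity) (by positivity)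

end Pool.Agent.Q103.HL
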