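import Mathlib
import Pool.Agent.Q103.HL.Digits

/-!
# The Hall-Lang inequality with absolute exponents for points with small digits
-/

set_option autoImplicit false

namespace Pool.Agent.Q103.HL

open Polynomial Filter

theorem one_le_max {A B : ℤ} (hAB : 4 * A ^ 3 + 27 * B ^ 2 ≠ 0) :
    1 ≤ max |(A : ℝ)| |(B : ℝ)| := by
  by_contra hcon
  push Not at hcon
  rw [max_lt_iff] at hcon
  have hA1 : |A| < 1 := by exact_mod_cast hcon.1
  have hB1 : |B| < 1 := by exact_mod_cast hcon.2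
  rw [Int.abs_lt_one_iff] at hA1 hB1
  apply hAB
  rw [hA1, hB1]
  norm_num

/-- from the bound for `x` to the bound for `y` -/
theorem bound_y {x y A B : ℤ} {h ε : ℝ} (hε : 0 < ε) (h1 : 1 ≤ h) (hA : |(A : ℝ)| ≤ h)
    (hB : |(B : ℝ)| ≤ h) (heq : y ^ 2 = x ^ 3 + A * x + B) (hx1 : 1 ≤ |(x : ℝ)|)
    (hx : |(x : ℝ)| ≤ h ^ (44 + ε / 2)) (h3 : 3 ≤ h ^ (ε / 2)) :
    |(y : ℝ)| ≤ h ^ (66 + ε) := by
  have h0 : 0 < h := by linarith
  obtain ⟨u, hu⟩ : ∃ u, u = h ^ (44 + ε / 2) := ⟨_, rfl⟩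
  rw [← hu] at hx
  have hu0 : 0 ≤ u := by rw [hu]; positivity
  have hhu : h ≤ u := by
    rw [hu]
    calc h = h ^ (1 : ℝ) := (Real.rpow_one h).symm
      _ ≤ _ := Real.rpow_le_rpow_of_exponent_le h1 (by linarith)
  have hu1 : 1 ≤ u := h1.trans hhu
  have heqR : (y : ℝ) ^ 2 = (x : ℝ) ^ 3 + A * x + B := by exact_mod_cast heq
  have hy2 : (y : ℝ) ^ 2 ≤ 3 * u ^ 3 := by
    have e1 : (x : ℝ) ^ 3 ≤ u ^ 3 := by
      calc (x : ℝ) ^ 3 ≤ |(x : ℝ) ^ 3| := le_abs_self _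
        _ = |(x : ℝ)| ^ 3 := abs_pow _ _
        _ ≤ u ^ 3 := pow_le_pow_left₀ (abs_nonneg _) hx 3
    have e2 : (A : ℝ) * x ≤ u ^ 3 := by
      calc (A : ℝ) * x ≤ |(A : ℝ) * x| := le_abs_self _
        _ = |(A : ℝ)| * |(x : ℝ)| := abs_mul _ _
        _ ≤ u * u := mul_le_mul (hA.trans hhu) hx (abs_nonneg _) hu0
        _ ≤ u ^ 3 := by nlinarith [mul_nonneg hu0 hu0]
    have e3 : (B : ℝ) ≤ u ^ 3 := by
      calc (B : ℝ) ≤ |(B : ℝ)| := le_abs_self _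
        _ ≤ u := hB.trans hhu
        _ ≤ u ^ 3 := le_self_pow₀ hu1 (by norm_num)
    linarith
  have hy3 : (y : ℝ) ^ 2 ≤ (h ^ (66 + ε)) ^ 2 := by
    have e1 : (h ^ (66 + ε)) ^ 2 = h ^ (ε / 2) * u ^ 3 := by
      rw [hu, ← Real.rpow_natCast (h ^ (66 + ε)), ← Real.rpow_mul h0.le,
        ← Real.rpow_natCast (h ^ (44 + ε / 2)), ← Real.rpow_mul h0.le, ← Real.rpow_add h0]
      congr 1
      push_cast
      ring
    rw [e1]
    have : 0 ≤ u ^ 3 := by positivity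
    nlinarith
  exact abs_le_of_sq_le_sq hy3 (by positivity) |> fun h => abs_le.mpr (abs_le.mp h)

/-- **Hall-Lang with absolute exponents for points whose coordinates have small digits.** -/
theorem digits (N : ℕ) (ε : ℝ) (hε : 0 < ε) : ∃ δ : ℝ, 0 < δ ∧ ∃ t₀ : ℕ, 16 ≤ t₀ ∧
    ∀ t : ℕ, t₀ ≤ t → ∀ P Q : ℤ[X], P.natDegree ≤ N → Q.natDegree ≤ N →
    (0 < P.natDegree ∨ 0 < Q.natDegree) →
    (∀ i, |(P.coeff i : ℝ)| ≤ (t : ℝ) ^ δ) → (∀ i, |(Q.coeff i : ℝ)| ≤ (t : ℝ) ^ δ) →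
    ∀ A B : ℤ, 4 * A ^ 3 + 27 * B ^ 2 ≠ 0 →
    (Q.eval (t : ℤ)) ^ 2 = (P.eval (t : ℤ)) ^ 3 + A * P.eval (t : ℤ) + B →
    |((P.eval (t : ℤ) : ℤ) : ℝ)| ≤ (max |(A : ℝ)| |(B : ℝ)|) ^ (44 + ε) ∧
    |((Q.eval (t : ℤ) : ℤ) : ℝ)| ≤ (max |(A : ℝ)| |(B : ℝ)|) ^ (66 + ε) := by
  obtain ⟨n, hn⟩ : ∃ n, n = 3 * N + 1 := ⟨_, rfl⟩
  obtain ⟨e, he⟩ : ∃ e : ℝ, e = (ε / 2) / (44 + ε / 2) := ⟨_, rfl⟩
  have he0 : 0 < e := by rw [he]; positivity
  have he1 : e < 1 := by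
    rw [he, div_lt_one (by positivity)]
    linarith
  obtain ⟨δ, hδ⟩ : ∃ δ : ℝ, δ = min (1 / (2 * ((n : ℝ) + 4))) (e / (2 * (44 * (n : ℝ) + 1))) :=
    ⟨_, rfl⟩
  have hδ0 : 0 < δ := by rw [hδ]; exact lt_min (by positivity) (by positivity)
  have hδ1 : δ * (n + 4) ≤ 1 / 2 := by
    have h1 : δ ≤ 1 / (2 * ((n : ℝ) + 4)) := by rw [hδ]; exact min_le_left _ _
    calc δ * (n + 4) ≤ 1 / (2 * ((n : ℝ) + 4)) * (n + 4) :=
          mul_le_mul_of_nonneg_right h1 (by positivity)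
      _ = 1 / 2 := by field_simp
  have hδ2 : δ * (44 * n + 1) ≤ e / 2 := by
    have h1 : δ ≤ e / (2 * (44 * (n : ℝ) + 1)) := by rw [hδ]; exact min_le_right _ _
    calc δ * (44 * n + 1) ≤ e / (2 * (44 * (n : ℝ) + 1)) * (44 * n + 1) :=
          mul_le_mul_of_nonneg_right h1 (by positivity)
      _ = e / 2 := by field_simp
  -- thresholds
  obtain ⟨c₁, hc₁⟩ : ∃ c₁ : ℝ, c₁ = 16 * ((N : ℝ) + 1) ^ 3 * 3 ^ n + 12 := ⟨_, rfl⟩
  have l1 : Tendsto (fun t : ℕ => (t : ℝ) ^ (1 / 2 : ℝ)) atTop atTop :=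
    (tendsto_rpow_atTop (by norm_num)).comp tendsto_natCast_atTop_atTop
  have l2 : Tendsto (fun t : ℕ => (t : ℝ) ^ (e / 2)) atTop atTop :=
    (tendsto_rpow_atTop (by positivity)).comp tendsto_natCast_atTop_atTop
  obtain ⟨t₁, ht₁⟩ := eventually_atTop.mp
    ((l1.eventually_ge_atTop c₁).and (l2.eventually_ge_atTop (2 ^ 45 * 2 ^ e)))
  refine ⟨δ, hδ0, max t₁ 16, le_max_right _ _, ?_⟩
  intro t ht P Q hPN hQN hpos hP hQ A B hAB heq
  obtain ⟨ht1, ht2⟩ := ht₁ t ((le_max_left _ _).trans ht)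
  have ht16 : 16 ≤ t := (le_max_right _ _).trans ht
  have htR : (16 : ℝ) ≤ t := by exact_mod_cast ht16
  have ht0 : (0 : ℝ) < t := by linarith
  obtain ⟨W, hW⟩ : ∃ W : ℝ, W = (t : ℝ) ^ δ := ⟨_, rfl⟩
  rw [← hW] at hP hQ
  have hW1 : 1 ≤ W := by rw [hW]; exact Real.one_le_rpow (by linarith) hδ0.le
  obtain ⟨h, hh⟩ : ∃ h : ℝ, h = max |(A : ℝ)| |(B : ℝ)| := ⟨_, rfl⟩
  have h1 : 1 ≤ h := by rw [hh]; exact one_le_max hAB
  have hA : |(A : ℝ)| ≤ h := by rw [hh]; exact le_max_left _ _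
  have hB : |(B : ℝ)| ≤ h := by rw [hh]; exact le_max_right _ _
  rw [← hh]
  -- the power `W ^ (n + 3)` is at most the square root of `t`
  obtain ⟨r, hr⟩ : ∃ r : ℝ, r = (t : ℝ) ^ (1 / 2 : ℝ) := ⟨_, rfl⟩
  have hrr : r * r = t := by
    rw [hr, ← Real.rpow_add ht0]
    norm_num
  rw [← hr] at ht1
  have hr1 : 1 ≤ r := by
    rw [hr]
    exact Real.one_le_rpow (by linarith) (by norm_num)
  have hWr : W ^ (n + 3) ≤ r := by
    rw [hW, hr, ← Real.rpow_natCast, ← Real.rpow_mul ht0.le]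
    apply Real.rpow_le_rpow_of_exponent_le (by linarith)
    push_cast
    have : δ * (n + 3) ≤ δ * (n + 4) := mul_le_mul_of_nonneg_left (by linarith) hδ0.le
    linarith
  have hW3r : W ^ 3 ≤ r := (pow_le_pow_right₀ hW1 (by omega)).trans hWr
  have hWle3 : W ≤ W ^ 3 := le_self_pow₀ hW1 (by norm_num)
  -- the constants
  obtain ⟨U, hU⟩ : ∃ U : ℝ, U = (((N : ℝ) + 1) * W) ^ 2 + (((N : ℝ) + 1) * W) ^ 3 := ⟨_, rfl⟩
  have hD : ∀ i, |((Q ^ 2 - P ^ 3).coeff i : ℝ)| ≤ U := by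
    rw [hU]
    exact (((Bd.of_coeff hQN hQ).pow 2).sub ((Bd.of_coeff hPN hP).pow 3)).coeff
  have hU2 : U ≤ 2 * (((N : ℝ) + 1) * W) ^ 3 := by
    rw [hU]
    have hN1 : (1 : ℝ) ≤ (N : ℝ) + 1 := by
      have : (0 : ℝ) ≤ N := by positivity
      linarith
    have h2 : 1 ≤ ((N : ℝ) + 1) * W := by nlinarith
    have h3 : (((N : ℝ) + 1) * W) ^ 2 ≤ (((N : ℝ) + 1) * W) ^ 3 :=
      pow_le_pow_right₀ h2 (by norm_num)
    linarith
  have hthr : 8 * (U * (3 * W) ^ n) + 4 * W + 8 ≤ t := by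
    have h2 : U * (3 * W) ^ n ≤ 2 * ((N : ℝ) + 1) ^ 3 * 3 ^ n * r := by
      calc U * (3 * W) ^ n ≤ (2 * (((N : ℝ) + 1) * W) ^ 3) * (3 * W) ^ n :=
            mul_le_mul_of_nonneg_right hU2 (by positivity)
        _ = 2 * ((N : ℝ) + 1) ^ 3 * 3 ^ n * W ^ (n + 3) := by
            rw [mul_pow, mul_pow]
            ring
        _ ≤ _ := mul_le_mul_of_nonneg_left hWr (by positivity)
    have h3 : 4 * W + 8 ≤ 12 * r := by linarith
    have h4 : c₁ * r ≤ r * r := mul_le_mul_of_nonneg_right ht1 (by linarith)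
    rw [hc₁, hrr] at h4
    nlinarith
  rcases Nat.eq_zero_or_pos P.natDegree with hp0 | hp
  · -- `x` is a digit
    have hq : 0 < Q.natDegree := by omega
    have hPc := eq_C_of_natDegree_eq_zero hp0
    have hQ0 : Q ≠ 0 := by
      rintro rfl
      rw [natDegree_zero] at hq
      omega
    have hxW : |((P.eval (t : ℤ) : ℤ) : ℝ)| ≤ W := by
      rw [hPc, eval_C]
      exact hP 0
    have hU0 : 0 ≤ U := (abs_nonneg _).trans (hD 0)
    have hUW : 0 ≤ U * (3 * W) ^ n := by positivity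
    have hval := (Pool.Agent.Q103.SD.value_size (t := t) (B := W) (by omega) (by linarith) (by linarith) hQ hQ0).1
    obtain ⟨x, hx⟩ : ∃ x : ℤ, x = P.eval (t : ℤ) := ⟨_, rfl⟩
    obtain ⟨y, hy⟩ : ∃ y : ℤ, y = Q.eval (t : ℤ) := ⟨_, rfl⟩
    rw [← hx, ← hy] at heq
    rw [← hx] at hxW
    rw [← hy] at hval
    rw [← hx, ← hy]
    have hyt : (t : ℝ) / 2 ≤ |(y : ℝ)| := by
      have : (t : ℝ) ≤ (t : ℝ) ^ Q.natDegree := le_self_pow₀ (by linarith) hq.ne'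
      linarith
    have heqR : (y : ℝ) ^ 2 = (x : ℝ) ^ 3 + A * x + B := by exact_mod_cast heq
    have hWsq : 0 ≤ W := by linarith
    have hy2 : |(y : ℝ)| ^ 2 ≤ 3 * (h * W ^ 3) := by
      rw [sq_abs, heqR]
      have hW3 : 1 ≤ W ^ 3 := one_le_pow₀ hW1
      have e1 : (x : ℝ) ^ 3 ≤ h * W ^ 3 := by
        calc (x : ℝ) ^ 3 ≤ |(x : ℝ) ^ 3| := le_abs_self _
          _ = |(x : ℝ)| ^ 3 := abs_pow _ _
          _ ≤ W ^ 3 := pow_le_pow_left₀ (abs_nonneg _) hxW 3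
          _ ≤ h * W ^ 3 := by nlinarith
      have e2 : (A : ℝ) * x ≤ h * W ^ 3 := by
        calc (A : ℝ) * x ≤ |(A : ℝ) * x| := le_abs_self _
          _ = |(A : ℝ)| * |(x : ℝ)| := abs_mul _ _
          _ ≤ h * W ^ 3 := mul_le_mul hA (hxW.trans hWle3) (abs_nonneg _) (by linarith)
      have e3 : (B : ℝ) ≤ h * W ^ 3 := by
        calc (B : ℝ) ≤ |(B : ℝ)| := le_abs_self _
          _ ≤ h := hB
          _ ≤ h * W ^ 3 := by nlinarith
      linarith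
    have hW3t : 6 * W ^ 3 ≤ t := by
      have h4 : 12 ≤ r := by
        have : 0 ≤ 16 * ((N : ℝ) + 1) ^ 3 * 3 ^ n := by positivity
        linarith
      nlinarith
    have hyh : |(y : ℝ)| ≤ h := by
      have hy0 : 0 < |(y : ℝ)| := by linarith
      have h4 : |(y : ℝ)| * (t / 2) ≤ |(y : ℝ)| ^ 2 := by
        rw [pow_two]
        exact mul_le_mul_of_nonneg_left hyt hy0.le
      have h5 : |(y : ℝ)| * (t / 2) ≤ h * (t / 2) := by
        have h6 : h * (6 * W ^ 3) ≤ h * t := mul_le_mul_of_nonneg_left hW3t (by linarith)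
        linarith
      exact le_of_mul_le_mul_right h5 (by linarith)
    have hle : ∀ z : ℝ, 1 ≤ z → h ≤ h ^ z := fun z hz => by
      calc h = h ^ (1 : ℝ) := (Real.rpow_one h).symm
        _ ≤ _ := Real.rpow_le_rpow_of_exponent_le h1 hz
    refine ⟨?_, hyh.trans (hle _ (by linarith))⟩
    refine le_trans ?_ (hle _ (by linarith))
    have : W ≤ t / 2 := by
      have h7 : W ≤ W ^ 3 := hWle3
      linarith
    linarith
  · -- the main case
    have hP0 : P ≠ 0 := by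
      rintro rfl
      rw [natDegree_zero] at hp
      omega
    have hU0 : 0 ≤ U := (abs_nonneg _).trans (hD 0)
    have hUW : 0 ≤ U * (3 * W) ^ n := by positivity
    have hdeg : (Q ^ 2 - P ^ 3).natDegree < P.natDegree + n := by
      have h2 : (Q ^ 2 - P ^ 3).natDegree ≤ max (2 * N) (3 * N) :=
        (natDegree_sub_le _ _).trans (max_le_max
          (natDegree_pow_le_of_le 2 hQN) (natDegree_pow_le_of_le 3 hPN))
      omega
    have hcore := core hp hW1 hP hD hdeg hthr hAB heq hA hB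
    have hval := (Pool.Agent.Q103.SD.value_size (t := t) (B := W) (by omega) (by linarith) (by linarith) hP hP0).1
    obtain ⟨x, hx⟩ : ∃ x : ℤ, x = P.eval (t : ℤ) := ⟨_, rfl⟩
    obtain ⟨y, hy⟩ : ∃ y : ℤ, y = Q.eval (t : ℤ) := ⟨_, rfl⟩
    rw [← hx, ← hy] at heq
    rw [← hx] at hval hcore
    rw [← hx, ← hy]
    have hxt : (t : ℝ) / 2 ≤ |(x : ℝ)| := by
      have : (t : ℝ) ≤ (t : ℝ) ^ P.natDegree := le_self_pow₀ (by linarith) hp.ne'
      linarith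
    have hx0 : 0 < |(x : ℝ)| := by linarith
    have hx1 : 1 ≤ |(x : ℝ)| := by linarith
    have hth0 : (0 : ℝ) < t / 2 := by linarith
    have hh0 : 0 < h := by linarith
    -- the constant is at most `|x| ^ e`
    have hconst : 2 ^ 45 * W ^ (44 * n + 1) ≤ |(x : ℝ)| ^ e := by
      have h2 : W ^ (44 * n + 1) ≤ (t : ℝ) ^ (e / 2) := by
        rw [hW, ← Real.rpow_natCast, ← Real.rpow_mul ht0.le]
        apply Real.rpow_le_rpow_of_exponent_le (by linarith)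
        push_cast
        exact hδ2
      have h3 : (t : ℝ) ^ (e / 2) * (2 ^ 45 * 2 ^ e) ≤ (t : ℝ) ^ e := by
        calc (t : ℝ) ^ (e / 2) * (2 ^ 45 * 2 ^ e) ≤ (t : ℝ) ^ (e / 2) * (t : ℝ) ^ (e / 2) :=
              mul_le_mul_of_nonneg_left ht2 (by positivity)
          _ = (t : ℝ) ^ e := by rw [← Real.rpow_add ht0]; congr 1; ring
      have h4 : (t / 2 : ℝ) ^ e ≤ |(x : ℝ)| ^ e := Real.rpow_le_rpow (by linarith) hxt he0.le
      have h5 : (t / 2 : ℝ) ^ e * 2 ^ e = (t : ℝ) ^ e := by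
        rw [← Real.mul_rpow (by linarith) (by norm_num)]
        congr 1
        ring
      have h6 : (0 : ℝ) < 2 ^ e := by positivity
      have h7 : (2 ^ 45 * W ^ (44 * n + 1)) * (2 : ℝ) ^ e ≤ (t / 2 : ℝ) ^ e * 2 ^ e := by
        rw [h5]
        calc (2 ^ 45 * W ^ (44 * n + 1)) * (2 : ℝ) ^ e = W ^ (44 * n + 1) * (2 ^ 45 * 2 ^ e) := by ring
          _ ≤ (t : ℝ) ^ (e / 2) * (2 ^ 45 * 2 ^ e) := mul_le_mul_of_nonneg_right h2 (by positivity)
          _ ≤ _ := h3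
      exact (le_of_mul_le_mul_right h7 h6).trans h4
    have hxb : |(x : ℝ)| ≤ h ^ (44 + ε / 2) := by
      have h2 : |(x : ℝ)| ≤ |(x : ℝ)| ^ e * h ^ (44 : ℝ) := by
        calc |(x : ℝ)| ≤ 2 * W * (2 * W ^ n * h) ^ 44 := hcore
          _ = (2 ^ 45 * W ^ (44 * n + 1)) * h ^ (44 : ℕ) := by ring
          _ ≤ |(x : ℝ)| ^ e * h ^ (44 : ℕ) := mul_le_mul_of_nonneg_right hconst (by positivity)
          _ = _ := by rw [← Real.rpow_natCast h 44]; norm_num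
      have h3 : |(x : ℝ)| ^ (1 - e) ≤ h ^ (44 : ℝ) := by
        have h4 : |(x : ℝ)| ^ e * |(x : ℝ)| ^ (1 - e) = |(x : ℝ)| := by
          rw [← Real.rpow_add hx0]
          simp
        have h5 : 0 < |(x : ℝ)| ^ e := by positivity
        rw [← h4] at h2
        have h6 : |(x : ℝ)| ^ e * |(x : ℝ)| ^ (1 - e) ≤ |(x : ℝ)| ^ e * h ^ (44 : ℝ) := by
          convert h2 using 3
          rw [h4]
        exact le_of_mul_le_mul_left h6 h5
      have h7 : (|(x : ℝ)| ^ (1 - e)) ^ (1 / (1 - e)) ≤ (h ^ (44 : ℝ)) ^ (1 / (1 - e)) :=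
        Real.rpow_le_rpow (by positivity) h3 (by
          apply div_nonneg (by norm_num)
          linarith)
      rw [← Real.rpow_mul hx0.le, ← Real.rpow_mul hh0.le, mul_one_div_cancel (by linarith),
        Real.rpow_one] at h7
      refine h7.trans (Real.rpow_le_rpow_of_exponent_le h1 (le_of_eq ?_))
      rw [he]
      have : (44 : ℝ) + ε / 2 ≠ 0 := by positivity
      field_simp
      ring
    have h3 : 3 ≤ h ^ (ε / 2) := by
      have h4 : (h ^ (44 + ε / 2)) ^ e = h ^ (ε / 2) := by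
        rw [← Real.rpow_mul hh0.le, he]
        congr 1
        field_simp
      rw [← h4]
      have h5 : (t / 2 : ℝ) ^ e ≤ (h ^ (44 + ε / 2)) ^ e :=
        Real.rpow_le_rpow (by linarith) (hxt.trans hxb) he0.le
      refine le_trans ?_ h5
      have h6 : (t / 2 : ℝ) ^ e * 2 ^ e = (t : ℝ) ^ e := by
        rw [← Real.mul_rpow (by linarith) (by norm_num)]
        congr 1
        ring
      have h7 : (t : ℝ) ^ e = (t : ℝ) ^ (e / 2) * (t : ℝ) ^ (e / 2) := by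
        rw [← Real.rpow_add ht0]; congr 1; ring
      have h8 : (0 : ℝ) < 2 ^ e := by positivity
      have h9 : 1 ≤ (t : ℝ) ^ (e / 2) := Real.one_le_rpow (by linarith) (by positivity)
      have h10 : 3 * (2 : ℝ) ^ e ≤ (t / 2 : ℝ) ^ e * 2 ^ e := by
        rw [h6, h7]
        calc 3 * (2 : ℝ) ^ e ≤ 2 ^ 45 * 2 ^ e := mul_le_mul_of_nonneg_right (by norm_num) h8.le
          _ ≤ 1 * (t : ℝ) ^ (e / 2) := by rw [one_mul]; exact ht2
          _ ≤ _ := mul_le_mul_of_nonneg_right h9 (by positivity)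
      exact le_of_mul_le_mul_right h10 h8
    exact ⟨hxb.trans (Real.rpow_le_rpow_of_exponent_le h1 (by linarith)),
      bound_y hε h1 hA hB heq hx1 hxb h3⟩

end Pool.Agent.Q103.HL
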