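import Mathlib
import Pool.Agent.Q103.SD.Monic
import Pool.Agent.Q103.SD.Drop
import Pool.Agent.Q103.HL.Main

/-!
# The Hall-Lang inequality with absolute exponents for points composed of numbers with small digits
-/

set_option autoImplicit false

namespace Pool.Agent.Q103.HL

open Polynomial Filter Pool.Agent.Q103.SD

theorem loglog_small (κ : ℕ) : ∃ M₀ : ℝ, 1 ≤ M₀ ∧ ∀ M : ℝ, M₀ ≤ M →
    Real.exp (Real.log (Real.log M) ^ κ) ≤ M ^ (1 / 4 : ℝ) := by
  have h1 : Tendsto (fun M : ℝ => Real.log M) atTop atTop := Real.tendsto_log_atTop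
  have h2 : ∀ᶠ x : ℝ in atTop, ‖Real.log x ^ κ‖ ≤ (1 / 4) * ‖x‖ :=
    (Real.isLittleO_pow_log_id_atTop (n := κ)).bound (by norm_num)
  obtain ⟨M₁, hM₁⟩ := eventually_atTop.mp (h1.eventually h2)
  refine ⟨max M₁ 3, (by norm_num : (1 : ℝ) ≤ 3).trans (le_max_right _ _), fun M hM => ?_⟩
  have hM3 : 3 ≤ M := (le_max_right _ _).trans hM
  have hM0 : 0 < M := by linarith
  have h3 := hM₁ M ((le_max_left _ _).trans hM)
  rw [Real.rpow_def_of_pos hM0]
  apply Real.exp_le_exp.mpr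
  have h4 : 0 ≤ Real.log M := Real.log_nonneg (by linarith)
  rw [Real.norm_eq_abs, Real.norm_eq_abs, abs_of_nonneg h4] at h3
  have := le_abs_self (Real.log (Real.log M) ^ κ)
  linarith

theorem Bd.PP {κ : Type*} [Fintype κ] {F : κ → ℤ[X]} {α : ℤ} {w a : ℝ} (hw : 1 ≤ w)
    (hα : |(α : ℝ)| ≤ a) (h : ∀ i, Bd (F i) w) (e : κ → ℕ) {E : ℕ} (hE : ∑ i, e i ≤ E) :
    Bd (Pool.Agent.Q103.SD.PP F α e) (a * w ^ E) := by
  have h1 := ((Bd.const α).mono hα).mul (Bd.prod Finset.univ (fun i => F i ^ e i)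
    (fun i => w ^ e i) (fun i _ => (h i).pow (e i)))
  rw [Finset.prod_pow_eq_pow_sum] at h1
  refine h1.mono ?_
  have ha : 0 ≤ a := (abs_nonneg _).trans hα
  exact mul_le_mul_of_nonneg_left (pow_le_pow_right₀ hw hE) ha

/-- The exponents are bounded. -/
theorem sum_le_of_size {t : ℕ} {n : ℕ} {q : Fin n → ℤ} (ht : 16 ≤ t)
    (hq : ∀ i, (t : ℝ) / 2 ≤ |(q i : ℝ)|) {α : ℤ} (hα : α ≠ 0) {b : Fin n → ℕ} {E : ℕ}
    (h : |((α * ∏ i, q i ^ b i : ℤ) : ℝ)| ^ 2 ≤ (t : ℝ) ^ E) : ∑ i, b i ≤ E := by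
  have htR : (16 : ℝ) ≤ t := by exact_mod_cast ht
  have h1 : ((t : ℝ) / 2) ^ (∑ i, b i) ≤ |((α * ∏ i, q i ^ b i : ℤ) : ℝ)| := by
    push_cast
    rw [abs_mul, Finset.abs_prod, ← Finset.prod_pow_eq_pow_sum]
    have h2 : ∏ i, ((t : ℝ) / 2) ^ b i ≤ ∏ i, |(q i : ℝ) ^ b i| := by
      apply Finset.prod_le_prod (fun i _ => by positivity)
      intro i _
      rw [abs_pow]
      exact pow_le_pow_left₀ (by linarith) (hq i) _
    have h3 : (1 : ℝ) ≤ |(α : ℝ)| := by exact_mod_cast Int.one_le_abs hα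
    have h4 : 0 ≤ ∏ i, |(q i : ℝ) ^ b i| := Finset.prod_nonneg fun i _ => abs_nonneg _
    nlinarith
  have h2 : (t : ℝ) ^ (∑ i, b i) ≤ (t : ℝ) ^ E := by
    calc (t : ℝ) ^ (∑ i, b i) ≤ (((t : ℝ) / 2) ^ 2) ^ (∑ i, b i) :=
          pow_le_pow_left₀ (by linarith) (by nlinarith) _
      _ = (((t : ℝ) / 2) ^ (∑ i, b i)) ^ 2 := by rw [← pow_mul, ← pow_mul, mul_comm]
      _ ≤ |((α * ∏ i, q i ^ b i : ℤ) : ℝ)| ^ 2 := pow_le_pow_left₀ (by positivity) h1 2
      _ ≤ _ := h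
  exact (pow_le_pow_iff_right₀ (by linarith)).mp h2

/-- **Hall-Lang with absolute exponents for points composed of numbers with small digits.** -/
theorem composed (K : ℕ) (ε : ℝ) (hε : 0 < ε) : ∃ δ : ℝ, 0 < δ ∧ ∃ t₀ : ℕ,
    ∀ t : ℕ, t₀ ≤ t → ∀ (n : ℕ) (F : Fin n → ℤ[X]) (ξ η : ℤ), DataM t K ((t : ℝ) ^ δ) F ξ η →
    ∀ b c : Fin n → ℕ, (used2 b c).Nonempty → ∀ A B : ℤ, 4 * A ^ 3 + 27 * B ^ 2 ≠ 0 →
    ∀ x y : ℤ, x = ξ * ∏ i, (F i).eval (t : ℤ) ^ b i → y = η * ∏ i, (F i).eval (t : ℤ) ^ c i →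
    y ^ 2 = x ^ 3 + A * x + B →
    |(x : ℝ)| ≤ (max |(A : ℝ)| |(B : ℝ)|) ^ (44 + ε) ∧
    |(y : ℝ)| ≤ (max |(A : ℝ)| |(B : ℝ)|) ^ (66 + ε) := by
  obtain ⟨δ₁, hδ₁, hδ₁', κ, t₁, ht₁, hmonic⟩ := Pool.Agent.Q103.SD.monic K (1 / 2) (by norm_num)
  obtain ⟨E, hE⟩ : ∃ E : ℕ, E = 8 * K + 1 := ⟨_, rfl⟩
  obtain ⟨δ₂, hδ₂, t₂, ht₂, hdig⟩ := digits (K * E) ε hε
  obtain ⟨M₀, hM₀, hloglog⟩ := loglog_small κ
  obtain ⟨δ, hδ⟩ : ∃ δ : ℝ, δ = min (δ₁ / 3) (δ₂ / (2 * ((E : ℝ) + 1))) := ⟨_, rfl⟩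
  have hδ0 : 0 < δ := by rw [hδ]; exact lt_min (by positivity) (by positivity)
  have hδ3 : δ * 3 ≤ δ₁ := by
    have h1 : δ ≤ δ₁ / 3 := by rw [hδ]; exact min_le_left _ _
    linarith
  have hδE : δ * (E + 1) ≤ δ₂ / 2 := by
    have h1 : δ ≤ δ₂ / (2 * ((E : ℝ) + 1)) := by rw [hδ]; exact min_le_right _ _
    calc δ * (E + 1) ≤ δ₂ / (2 * ((E : ℝ) + 1)) * (E + 1) :=
          mul_le_mul_of_nonneg_right h1 (by positivity)
      _ = δ₂ / 2 := by field_simp
  have l1 : Tendsto (fun t : ℕ => (t : ℝ) ^ (δ₂ / 2)) atTop atTop :=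
    (tendsto_rpow_atTop (by positivity)).comp tendsto_natCast_atTop_atTop
  have l2 : Tendsto (fun t : ℕ => (t : ℝ) ^ (1 / 2 : ℝ)) atTop atTop :=
    (tendsto_rpow_atTop (by norm_num)).comp tendsto_natCast_atTop_atTop
  have l3 : Tendsto (fun t : ℕ => (t : ℝ)) atTop atTop := tendsto_natCast_atTop_atTop
  have l4 : Tendsto (fun t : ℕ => ((t : ℝ) / 6) ^ (ε / 66)) atTop atTop :=
    (tendsto_rpow_atTop (by positivity)).comp
      (tendsto_natCast_atTop_atTop.atTop_div_const (by norm_num))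
  obtain ⟨t₃, ht₃⟩ := eventually_atTop.mp
    ((l1.eventually_ge_atTop (((K : ℝ) + 1) ^ E)).and ((l2.eventually_ge_atTop 16).and
      ((l3.eventually_ge_atTop (2 * M₀)).and (l4.eventually_ge_atTop 3))))
  refine ⟨δ, hδ0, max (max t₁ t₂) t₃, ?_⟩
  intro t ht n F ξ η hD b c hU A B hAB x y hx hy heq
  have htt₁ : t₁ ≤ t := (le_max_left _ _).trans ((le_max_left _ _).trans ht)
  have htt₂ : t₂ ≤ t := (le_max_right _ _).trans ((le_max_left _ _).trans ht)
  obtain ⟨s1, s2, s3, s4⟩ := ht₃ t ((le_max_right _ _).trans ht)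
  have ht64 : 64 ≤ t := ht₁.trans htt₁
  have htR : (64 : ℝ) ≤ t := by exact_mod_cast ht64
  have ht0 : (0 : ℝ) < t := by linarith
  obtain ⟨H, hH⟩ : ∃ H : ℝ, H = (t : ℝ) ^ δ := ⟨_, rfl⟩
  rw [← hH] at hD
  have hH1 : 1 ≤ H := by rw [hH]; exact Real.one_le_rpow (by linarith) hδ0.le
  obtain ⟨r, hr⟩ : ∃ r : ℝ, r = (t : ℝ) ^ (1 / 2 : ℝ) := ⟨_, rfl⟩
  have hrr : r * r = t := by
    rw [hr, ← Real.rpow_add ht0]
    norm_num
  rw [← hr] at s2
  have hδ₁H : H ^ 3 ≤ (t : ℝ) ^ δ₁ := by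
    rw [hH, ← Real.rpow_natCast, ← Real.rpow_mul ht0.le]
    apply Real.rpow_le_rpow_of_exponent_le (by linarith)
    push_cast
    exact hδ3
  have hHH3 : H ≤ H ^ 3 := le_self_pow₀ hH1 (by norm_num)
  have hδ₁r : (t : ℝ) ^ δ₁ ≤ r := by
    rw [hr]
    exact Real.rpow_le_rpow_of_exponent_le (by linarith) (by linarith)
  have hHr : H ≤ r := hHH3.trans (hδ₁H.trans hδ₁r)
  have hHt : 4 * H ≤ t := by nlinarith
  have hF0 : ∀ i, F i ≠ 0 := fun i h => by
    have := hD.pos i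
    rw [h, natDegree_zero] at this
    omega
  have hval := fun i => value_size (t := t) (by omega) (by linarith) hHt (hD.coeff i) (hF0 i)
  have hlow : ∀ i, (t : ℝ) / 2 ≤ |(((F i).eval (t : ℤ) : ℤ) : ℝ)| := by
    intro i
    have h1 := (hval i).1
    have h2 : (t : ℝ) ≤ (t : ℝ) ^ (F i).natDegree := le_self_pow₀ (by linarith) (hD.pos i).ne'
    linarith
  have hqne : ∀ i, (F i).eval (t : ℤ) ≠ 0 := by
    intro i h
    have h1 := hlow i
    rw [h] at h1
    simp only [Int.cast_zero, abs_zero] at h1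
    linarith
  have hxne : x ≠ 0 := by
    rw [hx]
    exact mul_ne_zero hD.β0 (Finset.prod_ne_zero_iff.mpr fun i _ => pow_ne_zero _ (hqne i))
  have hx1 : (1 : ℝ) ≤ |(x : ℝ)| := by exact_mod_cast Int.one_le_abs hxne
  obtain ⟨h, hh⟩ : ∃ h : ℝ, h = max |(A : ℝ)| |(B : ℝ)| := ⟨_, rfl⟩
  have h1 : 1 ≤ h := by rw [hh]; exact one_le_max hAB
  have hA : |(A : ℝ)| ≤ h := by rw [hh]; exact le_max_left _ _
  have hB : |(B : ℝ)| ≤ h := by rw [hh]; exact le_max_right _ _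
  rw [← hh]
  have hh0 : 0 < h := by linarith
  have heqR : (y : ℝ) ^ 2 = (x : ℝ) ^ 3 + A * x + B := by exact_mod_cast heq
  have hpow : ∀ z w : ℝ, z ≤ w → h ^ z ≤ h ^ w := fun z w hzw =>
    Real.rpow_le_rpow_of_exponent_le h1 hzw
  -- the size of `a = y ^ 2 - x ^ 3`
  have haR : |(y : ℝ) ^ 2 - (x : ℝ) ^ 3| ≤ 2 * (h * |(x : ℝ)|) := by
    rw [show (y : ℝ) ^ 2 - (x : ℝ) ^ 3 = A * x + B by rw [heqR]; ring]
    refine (abs_add_le _ _).trans ?_
    rw [abs_mul]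
    have e1 : |(A : ℝ)| * |(x : ℝ)| ≤ h * |(x : ℝ)| := mul_le_mul_of_nonneg_right hA (abs_nonneg _)
    have e2 : |(B : ℝ)| ≤ h * |(x : ℝ)| := by nlinarith
    linarith
  by_cases hsmall : |(x : ℝ)| ≤ h ^ (44 : ℝ)
  · -- `x` is small, hence `y` too
    have hx44 : |(x : ℝ)| ≤ h ^ (44 + ε) := hsmall.trans (hpow _ _ (by linarith))
    refine ⟨hx44, ?_⟩
    obtain ⟨u, hu⟩ : ∃ u, u = h ^ (44 : ℝ) := ⟨_, rfl⟩
    rw [← hu] at hsmall
    have hhu : h ≤ u := by
      rw [hu]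
      calc h = h ^ (1 : ℝ) := (Real.rpow_one h).symm
        _ ≤ _ := hpow _ _ (by norm_num)
    have hu1 : 1 ≤ u := h1.trans hhu
    have hx3 : |(x : ℝ)| ^ 3 ≤ u ^ 3 := pow_le_pow_left₀ (abs_nonneg _) hsmall 3
    have hhx : h * |(x : ℝ)| ≤ u ^ 3 := by
      calc h * |(x : ℝ)| ≤ u * u := mul_le_mul hhu hsmall (abs_nonneg _) (by linarith)
        _ ≤ u ^ 3 := by nlinarith [mul_nonneg (by linarith : (0 : ℝ) ≤ u) (by linarith : (0 : ℝ) ≤ u)]
    have hy2 : (y : ℝ) ^ 2 ≤ 3 * u ^ 3 := by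
      have e1 := le_abs_self ((y : ℝ) ^ 2 - (x : ℝ) ^ 3)
      have e2 := le_abs_self ((x : ℝ) ^ 3)
      rw [abs_pow] at e2
      linarith
    -- `h` is large
    have hu3 : (t : ℝ) / 2 ≤ 3 * u ^ 3 := by
      obtain ⟨i, hi⟩ := hU
      have hone : ∀ (α : ℤ) (e : Fin n → ℕ), α ≠ 0 → e i ≠ 0 →
          (t : ℝ) / 2 ≤ |((α * ∏ i, (F i).eval (t : ℤ) ^ e i : ℤ) : ℝ)| := by
        intro α e hα he
        have hdvd : (F i).eval (t : ℤ) ∣ α * ∏ i, (F i).eval (t : ℤ) ^ e i :=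
          ((dvd_pow_self _ he).trans (Finset.dvd_prod_of_mem (fun i => (F i).eval (t : ℤ) ^ e i)
            (Finset.mem_univ i))).mul_left _
        have hne : α * ∏ i, (F i).eval (t : ℤ) ^ e i ≠ 0 :=
          mul_ne_zero hα (Finset.prod_ne_zero_iff.mpr fun i _ => pow_ne_zero _ (hqne i))
        have hle : |(F i).eval (t : ℤ)| ≤ |α * ∏ i, (F i).eval (t : ℤ) ^ e i| :=
          Int.le_of_dvd (abs_pos.mpr hne) (abs_dvd_abs _ _ |>.mpr hdvd)
        have hleR : |(((F i).eval (t : ℤ) : ℤ) : ℝ)| ≤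
            |((α * ∏ i, (F i).eval (t : ℤ) ^ e i : ℤ) : ℝ)| := by exact_mod_cast hle
        exact (hlow i).trans hleR
      rcases (Finset.mem_filter.mp hi).2 with hbi | hci
      · have e1 := hone ξ b hD.β0 hbi
        rw [← hx] at e1
        have e2 : u ≤ u ^ 3 := le_self_pow₀ hu1 (by norm_num)
        linarith
      · have e1 := hone η c hD.γ0 hci
        rw [← hy] at e1
        have e2 : |(y : ℝ)| ≤ |(y : ℝ)| ^ 2 := le_self_pow₀ (by linarith) (by norm_num)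
        rw [sq_abs] at e2
        linarith
    have h3 : 3 ≤ h ^ (2 * ε) := by
      have e1 : (t : ℝ) ≤ 6 * h ^ (132 : ℝ) := by
        have : u ^ 3 = h ^ (132 : ℝ) := by
          rw [hu, ← Real.rpow_natCast, ← Real.rpow_mul hh0.le]
          norm_num
        rw [this] at hu3
        linarith
      calc (3 : ℝ) ≤ ((t : ℝ) / 6) ^ (ε / 66) := s4
        _ ≤ (h ^ (132 : ℝ)) ^ (ε / 66) :=
            Real.rpow_le_rpow (by positivity) (by linarith) (by positivity)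
        _ = h ^ (2 * ε) := by
            rw [← Real.rpow_mul hh0.le]
            congr 1
            ring
    have hy3 : (y : ℝ) ^ 2 ≤ (h ^ (66 + ε)) ^ 2 := by
      have e1 : (h ^ (66 + ε)) ^ 2 = h ^ (2 * ε) * u ^ 3 := by
        rw [hu, ← Real.rpow_natCast (h ^ (66 + ε)), ← Real.rpow_mul hh0.le,
          ← Real.rpow_natCast (h ^ (44 : ℝ)), ← Real.rpow_mul hh0.le, ← Real.rpow_add hh0]
        congr 1
        push_cast
        ring
      rw [e1]
      have : 0 ≤ u ^ 3 := by positivity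
      nlinarith
    exact abs_le_of_sq_le_sq hy3 (by positivity) |> fun h => abs_le.mpr (abs_le.mp h)
  · push Not at hsmall
    -- the library bound
    have hpw : ∀ (α : ℤ) (e : Fin n → ℕ) (k : ℕ), (α * ∏ i, (F i).eval (t : ℤ) ^ e i) ^ k =
        α ^ k * ∏ i, (F i).eval (t : ℤ) ^ (k * e i) := by
      intro α e k
      rw [mul_pow, ← Finset.prod_pow]
      congr 1
      apply Finset.prod_congr rfl
      intro i _
      rw [← pow_mul, mul_comm]
    have hDM : DataM t K ((t : ℝ) ^ δ₁) F (ξ ^ 3) (η ^ 2) := by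
      refine ⟨hD.pos, hD.deg, fun i j => (hD.coeff i j).trans (hHH3.trans hδ₁H), hD.lead,
        pow_ne_zero _ hD.β0, pow_ne_zero _ hD.γ0, ?_, ?_⟩
      · push_cast
        rw [abs_pow]
        exact (pow_le_pow_left₀ (abs_nonneg _) hD.βH 3).trans hδ₁H
      · push_cast
        rw [abs_pow]
        exact (pow_le_pow_left₀ (abs_nonneg _) hD.γH 2).trans
          ((pow_le_pow_right₀ hH1 (by norm_num)).trans hδ₁H)
    have hU' : (used2 (fun i => 3 * b i) (fun i => 2 * c i)).Nonempty := by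
      obtain ⟨i, hi⟩ := hU
      refine ⟨i, Finset.mem_filter.mpr ⟨Finset.mem_univ _, ?_⟩⟩
      rcases (Finset.mem_filter.mp hi).2 with h2 | h2
      · exact Or.inl (mul_ne_zero (by norm_num) h2)
      · exact Or.inr (mul_ne_zero (by norm_num) h2)
    have hane : y ^ 2 - x ^ 3 ≠ 0 := by
      intro h0
      have e1 : A * x + B = 0 := by linear_combination h0 - heq
      have e2 : |(B : ℝ)| = |(A : ℝ)| * |(x : ℝ)| := by
        rw [← abs_mul, ← abs_neg]
        congr 1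
        have : ((A * x + B : ℤ) : ℝ) = 0 := by rw [e1]; simp
        push_cast at this
        linarith
      have hA0 : A ≠ 0 := by
        rintro rfl
        apply hAB
        have : B = 0 := by linear_combination e1
        rw [this]
        norm_num
      have e3 : (1 : ℝ) ≤ |(A : ℝ)| := by exact_mod_cast Int.one_le_abs hA0
      have e4 : |(x : ℝ)| ≤ h := by nlinarith
      have e5 : h ≤ h ^ (44 : ℝ) := by
        calc h = h ^ (1 : ℝ) := (Real.rpow_one h).symm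
          _ ≤ _ := hpow _ _ (by norm_num)
      linarith
    obtain ⟨M, hM⟩ : ∃ M : ℝ, M = max |((y ^ 2 : ℤ) : ℝ)| |((x ^ 3 : ℤ) : ℝ)| := ⟨_, rfl⟩
    obtain ⟨hMt, hmain⟩ := hmonic t htt₁ n F (ξ ^ 3) (η ^ 2) hDM _ _ hU' (y ^ 2 - x ^ 3) hane
      (by rw [hx, hy, hpw, hpw]) M (by rw [hM, hx, hy, hpw, hpw])
    have hM0 : 0 < M := by linarith
    have hxM : |(x : ℝ)| ^ 3 ≤ M := by
      rw [hM]
      push_cast
      rw [← abs_pow]
      exact le_max_right _ _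
    have hyM : |(y : ℝ)| ^ 2 ≤ M := by
      rw [hM]
      push_cast
      rw [← abs_pow]
      exact le_max_left _ _
    obtain ⟨m, hm⟩ : ∃ m : ℝ, m = M ^ (1 / 4 : ℝ) := ⟨_, rfl⟩
    have hm0 : 0 < m := by rw [hm]; positivity
    have hm4 : m ^ 4 = M := by
      rw [hm, ← Real.rpow_natCast, ← Real.rpow_mul hM0.le]
      norm_num
    have hexp : Real.exp (Real.log (Real.log M) ^ κ) ≤ m := by
      rw [hm]
      exact hloglog M (by linarith)
    have ha : |((y ^ 2 - x ^ 3 : ℤ) : ℝ)| ≤ 2 * m ^ 2 := by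
      push_cast
      refine haR.trans ?_
      have e1 : h ^ 2 ≤ |(x : ℝ)| := by
        refine le_trans ?_ hsmall.le
        rw [← Real.rpow_natCast]
        exact hpow _ _ (by norm_num)
      have e2 : (h * |(x : ℝ)|) ^ 2 ≤ (m ^ 2) ^ 2 := by
        calc (h * |(x : ℝ)|) ^ 2 = h ^ 2 * |(x : ℝ)| ^ 2 := by ring
          _ ≤ |(x : ℝ)| * |(x : ℝ)| ^ 2 := mul_le_mul_of_nonneg_right e1 (by positivity)
          _ = |(x : ℝ)| ^ 3 := by ring
          _ ≤ M := hxM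
          _ = (m ^ 2) ^ 2 := by rw [← hm4]; ring
      have e3 := abs_le_of_sq_le_sq e2 (by positivity)
      rw [abs_of_nonneg (by positivity)] at e3
      linarith
    have hQ : |((∏ i ∈ used2 (fun i => 3 * b i) (fun i => 2 * c i), (F i).eval (t : ℤ) : ℤ) : ℝ)| ≤
        (t : ℝ) ^ (2 * K) := by
      push_cast
      rw [Finset.abs_prod]
      calc ∏ i ∈ used2 (fun i => 3 * b i) (fun i => 2 * c i), |(((F i).eval (t : ℤ) : ℤ) : ℝ)|
          ≤ ∏ i ∈ used2 (fun i => 3 * b i) (fun i => 2 * c i), (t : ℝ) ^ (2 * (F i).natDegree) := by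
            apply Finset.prod_le_prod (fun i _ => abs_nonneg _)
            intro i _
            refine (hval i).2.trans ?_
            calc (H + 1 / 2) * (t : ℝ) ^ (F i).natDegree ≤ t * (t : ℝ) ^ (F i).natDegree :=
                  mul_le_mul_of_nonneg_right (by linarith) (by positivity)
              _ ≤ (t : ℝ) ^ (F i).natDegree * (t : ℝ) ^ (F i).natDegree :=
                  mul_le_mul_of_nonneg_right (le_self_pow₀ (by linarith) (hD.pos i).ne')
                    (by positivity)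
              _ = _ := by rw [← pow_add]; congr 1; ring
        _ = (t : ℝ) ^ (∑ i ∈ used2 (fun i => 3 * b i) (fun i => 2 * c i), 2 * (F i).natDegree) :=
            Finset.prod_pow_eq_pow_sum _ _ _
        _ ≤ (t : ℝ) ^ (2 * K) := by
            apply pow_le_pow_right₀ (by linarith)
            rw [← Finset.mul_sum]
            exact Nat.mul_le_mul_left 2
              ((Finset.sum_le_univ_sum_of_nonneg fun _ => Nat.zero_le _).trans hD.deg)
    have hMle : M ≤ (t : ℝ) ^ E := by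
      have e1 : M * r ≤ 2 * m ^ 2 * (t : ℝ) ^ (2 * K) * m := by
        have e2 : M * (t : ℝ) ^ (1 - 1 / 2 : ℝ) = M * r := by
          rw [hr]
          norm_num
        rw [e2] at hmain
        refine hmain.trans ?_
        apply mul_le_mul _ hexp (Real.exp_pos _).le (by positivity)
        exact mul_le_mul ha hQ (abs_nonneg _) (by positivity)
      have e3 : m ^ 3 * m ≤ m ^ 3 * (t : ℝ) ^ (2 * K) := by
        have e4 : M * 2 ≤ M * r := mul_le_mul_of_nonneg_left (by linarith) hM0.le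
        rw [← hm4] at e4 e1
        nlinarith
      have e5 : m ≤ (t : ℝ) ^ (2 * K) := le_of_mul_le_mul_left e3 (by positivity)
      calc M = m ^ 4 := hm4.symm
        _ ≤ ((t : ℝ) ^ (2 * K)) ^ 4 := pow_le_pow_left₀ hm0.le e5 4
        _ = (t : ℝ) ^ (8 * K) := by rw [← pow_mul]; congr 1; ring
        _ ≤ (t : ℝ) ^ E := pow_le_pow_right₀ (by linarith) (by omega)
    have hbE : ∑ i, b i ≤ E := by
      apply sum_le_of_size (by omega) hlow hD.β0
      rw [← hx]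
      refine le_trans ?_ (hxM.trans hMle)
      exact pow_le_pow_right₀ hx1 (by norm_num)
    have hcE : ∑ i, c i ≤ E := by
      apply sum_le_of_size (by omega) hlow hD.γ0
      rw [← hy]
      exact hyM.trans hMle
    have hdegK : ∀ i, (F i).natDegree ≤ K := fun i =>
      (Finset.single_le_sum (f := fun i => (F i).natDegree) (fun _ _ => Nat.zero_le _)
        (Finset.mem_univ i)).trans hD.deg
    have hdegPP : ∀ (α : ℤ) (e : Fin n → ℕ), α ≠ 0 → ∑ i, e i ≤ E →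
        (Pool.Agent.Q103.SD.PP F α e).natDegree ≤ K * E := by
      intro α e hα he
      rw [natDegree_PP hF0 hα]
      calc ∑ i, e i * (F i).natDegree ≤ ∑ i, e i * K :=
            Finset.sum_le_sum fun i _ => Nat.mul_le_mul_left _ (hdegK i)
        _ = (∑ i, e i) * K := by rw [Finset.sum_mul]
        _ ≤ E * K := Nat.mul_le_mul_right _ he
        _ = K * E := mul_comm _ _
    have hcoef : ∀ (α : ℤ) (e : Fin n → ℕ), |(α : ℝ)| ≤ H → ∑ i, e i ≤ E → ∀ j,
        |(((Pool.Agent.Q103.SD.PP F α e).coeff j : ℤ) : ℝ)| ≤ (t : ℝ) ^ δ₂ := by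
      intro α e hα he j
      have hK1 : (1 : ℝ) ≤ (K : ℝ) + 1 := by
        have : (0 : ℝ) ≤ K := by positivity
        linarith
      have hw1 : 1 ≤ ((K : ℝ) + 1) * H := by nlinarith
      have e1 := (Bd.PP hw1 hα (fun i => Bd.of_coeff (hdegK i) (hD.coeff i)) e he).coeff j
      refine e1.trans ?_
      calc H * (((K : ℝ) + 1) * H) ^ E = ((K : ℝ) + 1) ^ E * H ^ (E + 1) := by
            rw [mul_pow]; ring
        _ ≤ (t : ℝ) ^ (δ₂ / 2) * (t : ℝ) ^ (δ₂ / 2) := by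
            apply mul_le_mul s1 _ (by positivity) (by positivity)
            rw [hH, ← Real.rpow_natCast, ← Real.rpow_mul ht0.le]
            apply Real.rpow_le_rpow_of_exponent_le (by linarith)
            push_cast
            exact hδE
        _ = (t : ℝ) ^ δ₂ := by rw [← Real.rpow_add ht0]; congr 1; ring
    have hpos : 0 < (Pool.Agent.Q103.SD.PP F ξ b).natDegree ∨
        0 < (Pool.Agent.Q103.SD.PP F η c).natDegree := by
      obtain ⟨i, hi⟩ := hU
      rw [natDegree_PP hF0 hD.β0, natDegree_PP hF0 hD.γ0]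
      rcases (Finset.mem_filter.mp hi).2 with h2 | h2
      · left
        exact (Nat.mul_pos (Nat.pos_of_ne_zero h2) (hD.pos i)).trans_le
          (Finset.single_le_sum (f := fun i => b i * (F i).natDegree) (fun _ _ => Nat.zero_le _)
            (Finset.mem_univ i))
      · right
        exact (Nat.mul_pos (Nat.pos_of_ne_zero h2) (hD.pos i)).trans_le
          (Finset.single_le_sum (f := fun i => c i * (F i).natDegree) (fun _ _ => Nat.zero_le _)
            (Finset.mem_univ i))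
    have hfin := hdig t htt₂ (Pool.Agent.Q103.SD.PP F ξ b) (Pool.Agent.Q103.SD.PP F η c)
      (hdegPP ξ b hD.β0 hbE) (hdegPP η c hD.γ0 hcE) hpos (hcoef ξ b hD.βH hbE)
      (hcoef η c hD.γH hcE) A B hAB (by rw [eval_PP, eval_PP, ← hx, ← hy]; exact heq)
    rw [eval_PP, eval_PP, ← hx, ← hy, ← hh] at hfin
    exact hfin

end Pool.Agent.Q103.HL
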